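import Mathlib

set_option autoImplicit false
set_option maxHeartbeats 4000000

/-!
Simultaneous approximation by units: the arithmetic part of the theorem on rough denominators.
-/

namespace Pool.Agent.X319.DI

open Finset

/-- The distance to the nearest integer. -/
def nn (q : ℚ) : ℚ := |q - round q|

lemma nn_le (q : ℚ) (z : ℤ) : nn q ≤ |q - z| := round_le q z

lemma nn_nonneg (q : ℚ) : 0 ≤ nn q := abs_nonneg _

lemma nn_congr {q q' : ℚ} (h : ∃ z : ℤ, q - q' = z) : nn q = nn q' := by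
  obtain ⟨z, hz⟩ := h
  have h1 : q = q' + z := by linarith
  unfold nn
  rw [h1, round_add_intCast]
  congr 1
  push_cast
  ring

lemma le_nn {q c : ℚ} (h : ∀ z : ℤ, c ≤ |q - z|) : c ≤ nn q := h _

lemma nn_add_ge (x y : ℚ) : nn y - nn x ≤ nn (x + y) := by
  refine le_nn fun z => ?_
  have h1 := nn_le y (z - round x)
  have h2 : y - ((z - round x : ℤ) : ℚ) = (x + y - z) - (x - round x) := by push_cast; ring
  rw [h2] at h1
  have h3 := abs_sub (x + y - z) (x - round x)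
  unfold nn at *
  linarith

/-- Dirichlet's theorem on simultaneous approximation. -/
lemma dirichlet {ι : Type*} [Fintype ι] (F : ι → ℚ) (K : ℕ) (hK : 0 < K) :
    ∃ b : ℕ, 1 ≤ b ∧ b ≤ K ^ Fintype.card ι ∧ ∀ i, nn (b * F i) < 1 / K := by
  classical
  have hKq : (0 : ℚ) < K := by exact_mod_cast hK
  have hlt : ∀ x : ℚ, ⌊(K : ℚ) * Int.fract x⌋.toNat < K := fun x => by
    have h1 : (K : ℚ) * Int.fract x < K := by
      have := Int.fract_lt_one x
      nlinarith
    have h2 : ⌊(K : ℚ) * Int.fract x⌋ < (K : ℤ) := Int.floor_lt.2 (by exact_mod_cast h1)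
    omega
  let f : Fin (K ^ Fintype.card ι + 1) → (ι → Fin K) := fun t i =>
    ⟨⌊(K : ℚ) * Int.fract ((t : ℕ) * F i)⌋.toNat, hlt _⟩
  obtain ⟨t, t', hne, heq⟩ := Fintype.exists_ne_map_eq_of_card_lt f (by
    rw [Fintype.card_fun, Fintype.card_fin, Fintype.card_fin]; omega)
  wlog hlt' : t < t' with hw
  · exact hw F K hK hKq hlt t' t hne.symm heq.symm (lt_of_le_of_ne (not_lt.1 hlt') hne.symm)
  refine ⟨(t' : ℕ) - t, by have : (t : ℕ) < t' := hlt'; omega, by have := t'.2; omega, fun i => ?_⟩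
  have h1 := congrFun heq i
  simp only [f, Fin.mk.injEq] at h1
  have hn : ∀ x : ℚ, 0 ≤ ⌊(K : ℚ) * Int.fract x⌋ := fun x =>
    Int.floor_nonneg.2 (mul_nonneg hKq.le (Int.fract_nonneg x))
  have h2 : ⌊(K : ℚ) * Int.fract ((t' : ℕ) * F i)⌋ = ⌊(K : ℚ) * Int.fract ((t : ℕ) * F i)⌋ := by
    have h3 := hn ((t' : ℕ) * F i)
    have h4 := hn ((t : ℕ) * F i)
    omega
  have h3 := Int.abs_sub_lt_one_of_floor_eq_floor h2
  rw [← mul_sub, abs_mul, abs_of_pos hKq] at h3
  have h4 := nn_le ((((t' : ℕ) - (t : ℕ) : ℕ) : ℚ) * F i) (⌊((t' : ℕ) : ℚ) * F i⌋ - ⌊((t : ℕ) : ℚ) * F i⌋)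
  have h5 : (((t' : ℕ) - (t : ℕ) : ℕ) : ℚ) * F i -
      ((⌊((t' : ℕ) : ℚ) * F i⌋ - ⌊((t : ℕ) : ℚ) * F i⌋ : ℤ) : ℚ) =
      Int.fract ((t' : ℕ) * F i) - Int.fract ((t : ℕ) * F i) := by
    rw [Nat.cast_sub (le_of_lt hlt')]
    simp only [Int.fract]
    push_cast
    ring
  rw [h5] at h4
  rw [lt_div_iff₀ hKq]
  nlinarith [mul_le_mul_of_nonneg_right h4 hKq.le]

/-- A unit whose quotient is far from the integers. -/
lemma exists_far (d : ℕ) (hd : 2 ≤ d) : ∃ u : ℤ, IsCoprime u (d : ℤ) ∧ (d : ℤ) ≤ 6 * u ∧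
    6 * u ≤ 5 * d := by
  rcases Nat.even_or_odd' d with ⟨k, hk | hk⟩
  · rcases Nat.even_or_odd' k with ⟨j, hj | hj⟩
    · refine ⟨k - 1, ?_, by omega, by omega⟩
      -- `d = 4 j`, `u = 2 j - 1`
      refine ⟨-(2 * (j : ℤ) + 1), j, ?_⟩
      rw [hk, hj]
      push_cast
      ring
    · rcases Nat.eq_zero_or_pos j with h0 | h0
      · refine ⟨1, isCoprime_one_left, by omega, by omega⟩
      · refine ⟨k - 2, ?_, by omega, by omega⟩
        -- `d = 4 j + 2`, `u = 2 j - 1`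
        have h1 : IsCoprime (2 * (j : ℤ) - 1) 2 := ⟨-1, j, by ring⟩
        have h2 : IsCoprime (2 * (j : ℤ) - 1) (2 * j + 1) := by
          have h3 : IsCoprime (2 * (j : ℤ) - 1) (2 + (2 * (j : ℤ) - 1) * 1) :=
            (IsCoprime.add_mul_left_right_iff).2 h1
          convert h3 using 1
          ring
        have h4 := h1.mul_right h2
        rw [hk, hj]
        convert h4 using 1 <;> push_cast <;> ring
  · refine ⟨k, ?_, by omega, by omega⟩
    refine ⟨-2, 1, ?_⟩
    rw [hk]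
    push_cast
    ring

/-- For `g` which is not an integer, with denominator dividing `N`, there is a unit `a` modulo `N`
such that `a g` is far from the integers. -/
lemma exists_far_mul (N : ℕ) (hN : 0 < N) (g : ℚ) (hg : ∃ z : ℤ, (N : ℚ) * g = z)
    (hg' : ¬ ∃ z : ℤ, g = z) : ∃ a : ℤ, IsCoprime a (N : ℤ) ∧ 1 / 6 ≤ nn (a * g) := by
  obtain ⟨z, hz⟩ := hg
  have hden : g.den ∣ N := by
    have h1 : g = Rat.divInt z N := by
      rw [Rat.divInt_eq_div, ← hz]
      have : (N : ℚ) ≠ 0 := by exact_mod_cast hN.ne'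
      push_cast
      field_simp
    have h2 := Rat.den_dvd z N
    rw [← h1] at h2
    exact_mod_cast h2
  have hd2 : 2 ≤ g.den := by
    have h1 := g.den_pos
    rcases Nat.lt_or_ge g.den 2 with h | h
    · exfalso
      apply hg'
      exact ⟨g.num, ((Rat.den_eq_one_iff g).1 (by omega)).symm⟩
    · exact h
  obtain ⟨u, hu, hu1, hu2⟩ := exists_far g.den hd2
  have hcop : IsCoprime g.num (g.den : ℤ) := Int.isCoprime_iff_gcd_eq_one.2 (by
    have := g.reduced
    rwa [Int.gcd, Int.natAbs_natCast])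
  obtain ⟨v, w, hvw⟩ := hcop
  have hv : IsCoprime v (g.den : ℤ) := ⟨g.num, w, by linear_combination hvw⟩
  have huv : IsCoprime (u * v) (g.den : ℤ) := hu.mul_left hv
  have : NeZero N := ⟨hN.ne'⟩
  have hunit : IsUnit (((u * v : ℤ)) : ZMod g.den) :=
    (ZMod.coe_int_isUnit_iff_isCoprime _ _).2 huv.symm
  obtain ⟨a', ha'⟩ := ZMod.unitsMap_surjective hden hunit.unit
  refine ⟨((a' : ZMod N).val : ℤ), ?_, ?_⟩
  · rw [isCoprime_comm, ← ZMod.coe_int_isUnit_iff_isCoprime]
    rw [Int.cast_natCast, ZMod.natCast_zmod_val]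
    exact a'.isUnit
  · set a : ℤ := ((a' : ZMod N).val : ℤ) with ha
    have h1 : (g.den : ℤ) ∣ a - u * v := by
      rw [← ZMod.intCast_zmod_eq_zero_iff_dvd]
      have h2 := congrArg (fun x : (ZMod g.den)ˣ => (x : ZMod g.den)) ha'
      simp only [ZMod.unitsMap_def, Units.coe_map, MonoidHom.coe_coe, ZMod.castHom_apply,
        IsUnit.unit_spec] at h2
      push_cast at h2 ⊢
      rw [ha, ← h2, Int.cast_natCast, ← ZMod.cast_eq_val, sub_self]
    obtain ⟨t, ht⟩ := h1
    have hgd : (g.den : ℚ) ≠ 0 := by exact_mod_cast g.den_ne_zero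
    have hgq : g * g.den = g.num := Rat.mul_den_eq_num g
    refine le_nn fun y => ?_
    have h3 : (a : ℚ) * g - y = ((u - (y + u * w - t * g.num) * g.den : ℤ) : ℚ) / g.den := by
      rw [eq_div_iff hgd]
      have h4 : ((a : ℤ) : ℚ) = u * v + g.den * t := by
        have : a = u * v + g.den * t := by linarith
        rw [this]; push_cast; ring
      have h5 : (v : ℚ) * g.num + w * g.den = 1 := by exact_mod_cast hvw
      push_cast
      rw [h4]
      linear_combination (u * v + g.den * t : ℚ) * hgq + (u : ℚ) * h5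
    rw [h3, abs_div, Nat.abs_cast, le_div_iff₀ (by exact_mod_cast g.den_pos)]
    set s : ℤ := y + u * w - t * g.num
    have h6 : (g.den : ℤ) ≤ 6 * |u - s * g.den| := by
      have hdp : (0 : ℤ) < g.den := by exact_mod_cast g.den_pos
      rcases le_or_gt s 0 with h | h
      · have h7 := le_abs_self (u - s * g.den)
        nlinarith
      · have h7 := neg_abs_le (u - s * g.den)
        nlinarith
    have h8 : ((g.den : ℤ) : ℚ) ≤ ((6 * |u - s * g.den| : ℤ) : ℚ) := by exact_mod_cast h6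
    push_cast at h8 ⊢
    linarith

/-- Moving a number away from the integers by multiples of a fraction. -/
lemma exists_shift (y h : ℚ) (hh : ¬ ∃ z : ℤ, h = z) : ∃ k : ℤ, 1 / 4 ≤ nn (y + k * h) := by
  have hd2 : 2 ≤ h.den := by
    have h1 := h.den_pos
    rcases Nat.lt_or_ge h.den 2 with h' | h'
    · exfalso
      apply hh
      exact ⟨h.num, ((Rat.den_eq_one_iff h).1 (by omega)).symm⟩
    · exact h'
  have hdq : (2 : ℚ) ≤ h.den := by exact_mod_cast hd2
  have hcop : IsCoprime h.num (h.den : ℤ) := Int.isCoprime_iff_gcd_eq_one.2 (by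
    have := h.reduced
    rwa [Int.gcd, Int.natAbs_natCast])
  obtain ⟨v, w, hvw⟩ := hcop
  have hgq : h * h.den = h.num := Rat.mul_den_eq_num h
  set j : ℤ := round ((h.den : ℚ) * (1 / 2 - y)) with hj
  refine ⟨j * v, ?_⟩
  have h5 : (v : ℚ) * h.num + w * h.den = 1 := by exact_mod_cast hvw
  have hden : (h.den : ℚ) ≠ 0 := by positivity
  have h6 : y + ((j * v : ℤ) : ℚ) * h - (y + j / h.den) = ((-(j * w) : ℤ) : ℚ) := by
    have h7 : h = h.num / h.den := (Rat.num_div_den h).symm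
    push_cast
    field_simp
    linear_combination (j : ℚ) * v * hgq + (j : ℚ) * h5
  rw [nn_congr ⟨_, h6⟩]
  refine le_nn fun z => ?_
  have h8 : |(h.den : ℚ) * (1 / 2 - y) - j| ≤ 1 / 2 := abs_sub_round _
  have h9 : |y + j / h.den - 1 / 2| ≤ 1 / 4 := by
    have h10 : y + j / h.den - 1 / 2 = -((h.den : ℚ) * (1 / 2 - y) - j) / h.den := by
      field_simp
      ring
    rw [h10, abs_div, abs_neg, Nat.abs_cast, div_le_iff₀ (by positivity)]
    linarith
  have h11 := abs_le.1 h9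
  rcases le_or_gt z 0 with hz | hz
  · have hz' : (z : ℚ) ≤ 0 := by exact_mod_cast hz
    have h12 := le_abs_self (y + j / h.den - z)
    linarith [h11.1]
  · have hz' : (1 : ℚ) ≤ z := by exact_mod_cast hz
    have h12 := neg_abs_le (y + j / h.den - z)
    linarith [h11.2]

lemma split (M : ℕ) : ∀ N : ℕ, 0 < N → ∃ N1 N2 : ℕ, N = N1 * N2 ∧ Nat.Coprime N2 M ∧
    ∀ p : ℕ, p.Prime → p ∣ N1 → p ∣ M := by
  intro N
  induction N using Nat.strong_induction_on with
  | _ N ih =>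
    intro hN
    by_cases hc : Nat.Coprime N M
    · exact ⟨1, N, by simp, hc, fun p hp h => absurd (Nat.dvd_one.1 h) hp.one_lt.ne'⟩
    · have hg : Nat.gcd N M ≠ 1 := hc
      have hg0 : 0 < Nat.gcd N M := Nat.gcd_pos_of_pos_left M hN
      obtain ⟨N', hN'⟩ := Nat.gcd_dvd_left N M
      have hN'0 : 0 < N' := by
        rcases Nat.eq_zero_or_pos N' with h | h
        · rw [h, mul_zero] at hN'; omega
        · exact h
      have hlt : N' < N := by
        have h2 : 2 ≤ Nat.gcd N M := by omega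
        nlinarith
      obtain ⟨N1, N2, h1, h2, h3⟩ := ih N' hlt hN'0
      refine ⟨Nat.gcd N M * N1, N2, by rw [mul_assoc, ← h1]; exact hN', h2, fun p hp h => ?_⟩
      rcases (Nat.Prime.dvd_mul hp).1 h with h4 | h4
      · exact h4.trans (Nat.gcd_dvd_right N M)
      · exact h3 p hp h4

/-- The arithmetic theorem. -/
theorem arith {ι : Type*} [Fintype ι] (F : ι → ℚ) (lam : ℚ) (n N M : ℕ) (hN : 0 < N) (hM : 0 < M)
    (hNl : ∃ z : ℤ, (N : ℚ) * lam = z) (hMF : ∀ i, ∃ z : ℤ, (M : ℚ) * F i = z)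
    (hMl : ¬ ∃ z : ℤ, (M : ℚ) * lam = z)
    (hrough : ∀ q : ℕ, q.Prime → q ∣ M → (6 * n + 7) ^ (Fintype.card ι + 1) < q) :
    ∃ a : ℤ, IsCoprime a (N : ℤ) ∧ (∀ i, nn (a * F i) < 1 / (6 * n + 7)) ∧
      (n : ℚ) / (6 * n + 7) < nn (a * lam) := by
  classical
  obtain ⟨N1, N2, hsp, hcop, hpr⟩ := split M (N * M) (by positivity)
  have hprod : 0 < N1 * N2 := by rw [← hsp]; positivity
  have hN1 : 0 < N1 := by
    rcases Nat.eq_zero_or_pos N1 with h | h
    · rw [h, zero_mul] at hprod; omega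
    · exact h
  have hN2 : 0 < N2 := by
    rcases Nat.eq_zero_or_pos N2 with h | h
    · rw [h, mul_zero] at hprod; omega
    · exact h
  have hMN1 : M ∣ N1 := by
    have h1 : M ∣ N1 * N2 := by rw [← hsp]; exact Dvd.intro_left N rfl
    exact hcop.symm.dvd_of_dvd_mul_right h1
  have hN12 : Nat.Coprime N1 N2 := by
    rw [Nat.coprime_iff_gcd_eq_one]
    by_contra hne
    obtain ⟨p, hp, hpd⟩ := Nat.exists_prime_and_dvd hne
    have h1 := hpr p hp (hpd.trans (Nat.gcd_dvd_left _ _))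
    have h2 := hpd.trans (Nat.gcd_dvd_right N1 N2)
    have h3 := Nat.dvd_gcd h2 h1
    rw [hcop] at h3
    exact hp.one_lt.ne' (Nat.dvd_one.1 h3)
  obtain ⟨u, v, huv⟩ := Nat.isCoprime_iff_coprime.2 hN12
  have huvq : (u : ℚ) * N1 + v * N2 = 1 := by exact_mod_cast huv
  obtain ⟨z, hz⟩ := hNl
  have hN1q : (N1 : ℚ) ≠ 0 := by exact_mod_cast hN1.ne'
  have hN2q : (N2 : ℚ) ≠ 0 := by exact_mod_cast hN2.ne'
  -- the two parts of `lam`
  set e : ℤ := M * z with he
  have hel : (N1 : ℚ) * N2 * lam = e := by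
    have h1 : ((N1 * N2 : ℕ) : ℚ) = ((N * M : ℕ) : ℚ) := by rw [hsp]
    push_cast at h1
    rw [h1, he]
    push_cast
    rw [← hz]
    ring
  set f : ℚ := (e : ℚ) * v / N1 with hf
  set g : ℚ := (e : ℚ) * u / N2 with hg
  have hfg : lam = f + g := by
    rw [hf, hg]
    field_simp
    linear_combination hel - (e : ℚ) * huvq
  have hf1 : (N1 : ℚ) * f = ((e * v : ℤ) : ℚ) := by rw [hf]; push_cast; field_simp
  have hg1 : (N2 : ℚ) * g = ((e * u : ℤ) : ℚ) := by rw [hg]; push_cast; field_simp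
  -- Dirichlet
  obtain ⟨b, hb1, hb2, hb3⟩ := dirichlet (fun i : Option ι => i.elim f F) (6 * n + 7) (by omega)
  rw [Fintype.card_option] at hb2
  have hbM : Nat.Coprime b M := by
    rw [Nat.coprime_iff_gcd_eq_one]
    by_contra hne
    obtain ⟨p, hp, hpd⟩ := Nat.exists_prime_and_dvd hne
    have h1 := hrough p hp (hpd.trans (Nat.gcd_dvd_right _ _))
    have h2 := Nat.le_of_dvd hb1 (hpd.trans (Nat.gcd_dvd_left _ _))
    omega
  have hKq : (((6 * n + 7 : ℕ)) : ℚ) = 6 * n + 7 := by push_cast; ring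
  have hKpos : (0 : ℚ) < 6 * n + 7 := by positivity
  -- numbers congruent to `b` modulo `M` are prime to `N1`
  have hunit1 : ∀ k : ℤ, IsCoprime ((b : ℤ) + k * M) (N1 : ℤ) := by
    intro k
    have h1 : IsCoprime ((b : ℤ) + k * M) (M : ℤ) := by
      rw [IsCoprime.add_mul_right_left_iff]
      exact Nat.isCoprime_iff_coprime.2 hbM
    rw [Int.isCoprime_iff_gcd_eq_one]
    by_contra hne
    obtain ⟨p, hp, hpd⟩ := Nat.exists_prime_and_dvd hne
    have h2 : (p : ℤ) ∣ (b : ℤ) + k * M := (Int.natCast_dvd_natCast.2 hpd).trans (Int.gcd_dvd_left _ _)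
    have h3 : (p : ℤ) ∣ (N1 : ℤ) := (Int.natCast_dvd_natCast.2 hpd).trans (Int.gcd_dvd_right _ _)
    have h4 : (p : ℤ) ∣ (M : ℤ) := Int.natCast_dvd_natCast.2 (hpr p hp (Int.natCast_dvd_natCast.1 h3))
    have h5 := h1.isUnit_of_dvd' h2 h4
    rw [Int.isUnit_iff] at h5
    have := hp.one_lt
    omega
  -- the choice of `a` by the Chinese remainder theorem
  have hcrt : ∀ a1 a2 : ℤ, IsCoprime a1 (N1 : ℤ) → IsCoprime a2 (N2 : ℤ) →
      ∃ a : ℤ, IsCoprime a (N : ℤ) ∧ (∃ t : ℤ, a = a1 + N1 * t) ∧ ∃ t : ℤ, a = a2 + N2 * t := by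
    intro a1 a2 h1 h2
    refine ⟨a1 * (v * N2) + a2 * (u * N1), ?_, ⟨u * (a2 - a1), by linear_combination a1 * huv⟩,
      ⟨v * (a1 - a2), by linear_combination a2 * huv⟩⟩
    have h3 : IsCoprime (a1 * (v * N2) + a2 * (u * N1)) (N1 : ℤ) := by
      have h4 : a1 * (v * N2) + a2 * (u * N1) = a1 + N1 * (u * (a2 - a1)) := by
        linear_combination a1 * huv
      rw [h4, IsCoprime.add_mul_left_left_iff]
      exact h1
    have h5 : IsCoprime (a1 * (v * N2) + a2 * (u * N1)) (N2 : ℤ) := by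
      have h4 : a1 * (v * N2) + a2 * (u * N1) = a2 + N2 * (v * (a1 - a2)) := by
        linear_combination a2 * huv
      rw [h4, IsCoprime.add_mul_left_left_iff]
      exact h2
    have h6 := h3.mul_right h5
    have h7 : ((N1 : ℤ) * N2) = N * M := by exact_mod_cast hsp.symm
    rw [h7] at h6
    exact h6.of_mul_right_left
  -- approximation of `F`
  have hF : ∀ (a k t : ℤ), a = (b : ℤ) + k * M + N1 * t → ∀ i, nn (a * F i) < 1 / (6 * n + 7) := by
    intro a k t ha i
    obtain ⟨c, hc⟩ := hMF i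
    obtain ⟨m, hm⟩ := hMN1
    have h1 := hb3 (some i)
    simp only [Option.elim] at h1
    rw [hKq] at h1
    rw [nn_congr (q' := b * F i) ⟨k * c + m * t * c, ?_⟩]
    · exact h1
    · rw [ha, hm]
      push_cast
      linear_combination ((k : ℚ) + m * t) * hc
  by_cases hgi : ∃ z : ℤ, g = z
  · -- the denominator of `lam` divides `N1`
    obtain ⟨g', hg'⟩ := hgi
    obtain ⟨k, hk⟩ := exists_shift (b * lam) (M * lam) hMl
    obtain ⟨a, ha, ⟨t, ht⟩, -⟩ := hcrt (b + k * M) 1 (hunit1 k) isCoprime_one_left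
    refine ⟨a, ha, hF a k t ht, ?_⟩
    have h1 : nn (a * lam) = nn (b * lam + k * (M * lam)) := by
      refine nn_congr ⟨e * v * t + N1 * g' * t, ?_⟩
      have h2 : (N1 : ℚ) * lam = ((e * v : ℤ) : ℚ) + N1 * g' := by
        rw [hfg, mul_add, hf1, hg']
      rw [ht]
      push_cast at h2 ⊢
      linear_combination (t : ℚ) * h2
    rw [h1]
    refine lt_of_lt_of_le ?_ hk
    rw [div_lt_iff₀ hKpos]
    linarith
  · obtain ⟨a2, ha2, ha3⟩ := exists_far_mul N2 hN2 g ⟨_, hg1⟩ hgi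
    obtain ⟨a, ha, ⟨t, ht⟩, ⟨s, hs⟩⟩ := hcrt b a2 (by simpa using hunit1 0) ha2
    refine ⟨a, ha, hF a 0 t (by rw [ht]; ring), ?_⟩
    have h1 : nn (a * lam) = nn (b * f + a2 * g) := by
      refine nn_congr ⟨e * v * t + e * u * s, ?_⟩
      have h2 : (a : ℚ) * lam = a * f + a * g := by rw [hfg]; ring
      have h3 : (a : ℚ) * f = b * f + t * (N1 * f) := by rw [ht]; push_cast; ring
      have h4 : (a : ℚ) * g = a2 * g + s * (N2 * g) := by rw [hs]; push_cast; ring
      rw [h2, h3, h4, hf1, hg1]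
      push_cast
      ring
    rw [h1]
    have h2 := nn_add_ge (b * f) (a2 * g)
    have h3 := hb3 none
    simp only [Option.elim] at h3
    rw [hKq] at h3
    have h4 : (n : ℚ) / (6 * n + 7) + 1 / (6 * n + 7) < 1 / 6 := by
      rw [← add_div, div_lt_iff₀ hKpos]
      linarith
    linarith

end Pool.Agent.X319.DI
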