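import Pool.Agent.TH571.PCV.Weyl

set_option autoImplicit false
set_option maxHeartbeats 4000000

/-!
The displacement inequality: combinatorial part and the inequality for systems.
-/

namespace Pool.Agent.X319.DI

open Finset Pool.Agent.W432.PC Pool.Agent.W280.PC Pool.Agent.TH571.PCV Polynomial

universe u

lemma emod_le_of {N : ℤ} (hN : 0 < N) {z w : ℤ} (h : N ∣ z - w) (hw : 0 ≤ w) : z % N ≤ w := by
  have h1 : z % N = w % N := Int.ModEq.symm ((Int.modEq_iff_dvd).2 h)
  rw [h1]
  have h2 := Int.emod_add_mul_ediv w N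
  have h3 : 0 ≤ w / N := Int.ediv_nonneg hw hN.le
  nlinarith

lemma neg_sub_one_emod {N : ℤ} (hN : 0 < N) (z : ℤ) : (-z - 1) % N = N - 1 - z % N := by
  have h2 := Int.emod_add_mul_ediv z N
  have h3 := Int.emod_nonneg z hN.ne'
  have h4 := Int.emod_lt_of_pos z hN
  have h5 : (-z - 1) = (N - 1 - z % N) + N * (-(z / N) - 1) := by linear_combination h2
  rw [h5, Int.add_mul_emod_self_left]
  exact Int.emod_eq_of_lt (by omega) (by omega)

/-- The combinatorial form of the displacement inequality. -/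
lemma disp {ι : Type*} [Fintype ι] [DecidableEq ι] {r : ℕ} {N : ℤ} (hN : 0 < N)
    (V : ι → Fin r → ℤ)
    (hP : ∀ x : ι → ℤ, ∑ p, x p = 1 → (r : ℤ) * (N - 1) ≤ ∑ p, ∑ l, (V p l - x p) % N)
    (hP' : ∀ x : ι → ℤ, ∑ p, x p = 1 → (r : ℤ) * (N - 1) ≤ ∑ p, ∑ l, (-V p l - x p) % N)
    (x0 : ι) (y : ι → Fin r → ℤ) (hy : ∀ p, p ≠ x0 → ∀ l, N ∣ V p l - y p l) (D : ι → ℤ)
    (hD : ∀ p, p ≠ x0 → ∀ l, |y p l| ≤ D p) (l0 : Fin r) :
    V x0 l0 % N ≤ ∑ p ∈ univ.erase x0, D p ∨ N - ∑ p ∈ univ.erase x0, D p ≤ V x0 l0 % N := by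
  classical
  set Δ : ℤ := ∑ p ∈ univ.erase x0, D p with hΔ
  by_contra hcon
  push Not at hcon
  obtain ⟨hc1, hc2⟩ := hcon
  have hΔ0 : 0 ≤ Δ := sum_nonneg fun p hp => (abs_nonneg _).trans (hD p (ne_of_mem_erase hp) l0)
  have h2Δ : 2 * Δ < N := by omega
  let x : ι → ℤ := fun p => if p = x0 then 1 + Δ else -D p
  have hx0 : x x0 = 1 + Δ := by simp only [x, if_true]
  have hxp : ∀ p, p ≠ x0 → x p = -D p := fun p hp => by simp only [x, if_neg hp]
  have hx : ∑ p, x p = 1 := by
    rw [← add_sum_erase univ x (mem_univ x0), hx0,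
      sum_congr rfl (fun p hp => hxp p (ne_of_mem_erase hp)), sum_neg_distrib, ← hΔ]
    ring
  have hv0 : ∀ l, 0 ≤ V x0 l % N := fun l => Int.emod_nonneg _ hN.ne'
  have hv1 : ∀ l, V x0 l % N < N := fun l => Int.emod_lt_of_pos _ hN
  have hvd : ∀ l, N ∣ V x0 l - V x0 l % N := fun l => Int.dvd_self_sub_emod
  -- the first inequality
  have k1 := hP x hx
  have k2 : ∑ p, ∑ l, (V p l - x p) % N ≤
      (∑ l, (V x0 l % N - 1 - Δ + if V x0 l % N ≤ Δ then N else 0)) +
      ∑ p ∈ univ.erase x0, ∑ l, (y p l + D p) := by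
    rw [← add_sum_erase univ (fun p => ∑ l, (V p l - x p) % N) (mem_univ x0)]
    refine add_le_add (sum_le_sum fun l _ => ?_) (sum_le_sum fun p hp => sum_le_sum fun l _ => ?_)
    · rw [hx0]
      refine emod_le_of hN ?_ ?_
      · split_ifs with h
        · have h5 : V x0 l - (1 + Δ) - (V x0 l % N - 1 - Δ + N) = (V x0 l - V x0 l % N) - N := by ring
          rw [h5]; exact dvd_sub (hvd l) dvd_rfl
        · have h5 : V x0 l - (1 + Δ) - (V x0 l % N - 1 - Δ + 0) = (V x0 l - V x0 l % N) := by ring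
          rw [h5]; exact hvd l
      · have := hv0 l
        split_ifs with h <;> omega
    · have hp' := ne_of_mem_erase hp
      rw [hxp p hp']
      refine emod_le_of hN ?_ ?_
      · have h5 : V p l - -D p - (y p l + D p) = V p l - y p l := by ring
        rw [h5]; exact hy p hp' l
      · have := (abs_le.1 (hD p hp' l)).1
        omega
  -- the second inequality
  have k3 := hP' x hx
  have k4 : ∑ p, ∑ l, (-V p l - x p) % N ≤
      (∑ l, (N - V x0 l % N - 1 - Δ + if N - Δ ≤ V x0 l % N then N else 0)) +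
      ∑ p ∈ univ.erase x0, ∑ l, (-y p l + D p) := by
    rw [← add_sum_erase univ (fun p => ∑ l, (-V p l - x p) % N) (mem_univ x0)]
    refine add_le_add (sum_le_sum fun l _ => ?_) (sum_le_sum fun p hp => sum_le_sum fun l _ => ?_)
    · rw [hx0]
      refine emod_le_of hN ?_ ?_
      · split_ifs with h
        · have h5 : -V x0 l - (1 + Δ) - (N - V x0 l % N - 1 - Δ + N) =
              -(V x0 l - V x0 l % N) - N * 2 := by ring
          rw [h5]; exact dvd_sub ((hvd l).neg_right) (Dvd.intro _ rfl)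
        · have h5 : -V x0 l - (1 + Δ) - (N - V x0 l % N - 1 - Δ + 0) =
              -(V x0 l - V x0 l % N) - N := by ring
          rw [h5]; exact dvd_sub ((hvd l).neg_right) dvd_rfl
      · have := hv1 l
        split_ifs with h <;> omega
    · have hp' := ne_of_mem_erase hp
      rw [hxp p hp']
      refine emod_le_of hN ?_ ?_
      · have h5 : -V p l - -D p - (-y p l + D p) = -(V p l - y p l) := by ring
        rw [h5]; exact (hy p hp' l).neg_right
      · have := (abs_le.1 (hD p hp' l)).2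
        omega
  -- counting
  have k5 : ∑ l : Fin r, ((if V x0 l % N ≤ Δ then N else 0) +
      (if N - Δ ≤ V x0 l % N then N else 0)) < ∑ _l : Fin r, N := by
    refine sum_lt_sum (fun l _ => ?_) ⟨l0, mem_univ _, ?_⟩
    · split_ifs <;> omega
    · rw [if_neg (by omega), if_neg (by omega)]
      omega
  rw [sum_const, card_univ, Fintype.card_fin, nsmul_eq_mul] at k5
  have hc : ∀ (c : ℤ), ∑ _l : Fin r, c = r * c := fun c => by
    rw [sum_const, card_univ, Fintype.card_fin, nsmul_eq_mul]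
  have hYD : ∑ p ∈ univ.erase x0, (r : ℤ) * D p = r * Δ := by
    rw [hΔ, mul_sum]
  simp only [sum_add_distrib, sum_sub_distrib, sum_neg_distrib, hc, hYD] at k2 k4 k5
  linarith

variable {R : Type u} [CommRing R] [IsDomain R] [CharZero R]

/-- For all large primes in the class the `p`-curvature is nonzero at all closed points. -/
def Bad {R : Type*} [CommRing R] {n r : ℕ} (α : Fin n → R) (A : Fin n → Matrix (Fin r) (Fin r) R)
    (N : ℕ) (a : ℤ) : Prop :=
  ∃ P₀ : ℕ, ∀ p : ℕ, p.Prime → P₀ < p → (N : ℤ) ∣ a * p + 1 →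
    ∀ (𝔪 : Ideal R) [𝔪.IsMaximal], (p : R) ∈ 𝔪 → ¬ PCurvZeroAt α A 𝔪

/-- The symmetric inequality for systems and for their duals. -/
theorem sym_ineq {n r : ℕ} (α : Fin n → R) (hα : ∀ i j, i ≠ j → IsUnit (α i - α j))
    (A A' : Fin n → Matrix (Fin r) (Fin r) R)
    (hA' : A' = A ∨ A' = fun j => -(A j).transpose) (N : ℕ) (hN : 0 < N)
    (E : Option (Fin n) → Fin r → ℤ)
    (hE : ∀ j, HasExponents (A' j) (fun l => (E (some j) l : ℚ) / N))
    (hE' : HasExponents (∑ j, A' j) (fun l => -(E none l : ℚ) / N)) (a : ℤ)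
    (hno : ¬ Bad α A N a) (x : Option (Fin n) → ℤ) (hx : ∑ p, x p = 1) :
    (r : ℤ) * (N - 1) ≤ ∑ p, ∑ l, (a * E p l - x p) % (N : ℤ) := by
  have hNq : (N : ℚ) ≠ 0 := by exact_mod_cast hN.ne'
  have hN0 : (0 : ℤ) < N := by exact_mod_cast hN
  have h1 := pos_of_not α hα A A' hA' (fun j l => (E (some j) l : ℚ) / N)
    (fun l => -(E none l : ℚ) / N) hE hE' N hN (fun j => E (some j)) (fun l => -E none l)
    (fun j l => by field_simp) (fun l => by push_cast; field_simp) a hno (fun j => x (some j))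
  rw [Fintype.sum_option] at hx ⊢
  have h2 : ∀ l, (a * -E none l - ∑ j, x (some j)) % (N : ℤ) =
      N - 1 - (a * E none l - x none) % (N : ℤ) := fun l => by
    rw [← neg_sub_one_emod hN0]
    congr 1
    linear_combination -hx
  simp only [h2, sum_sub_distrib, sum_const, card_univ, Fintype.card_fin, nsmul_eq_mul] at h1
  linarith

/-- The displacement inequality, in terms of the numerators of the exponents. -/
theorem disp_system {n r : ℕ} (α : Fin n → R) (hα : ∀ i j, i ≠ j → IsUnit (α i - α j))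
    (A : Fin n → Matrix (Fin r) (Fin r) R) (N : ℕ) (hN : 0 < N)
    (E : Option (Fin n) → Fin r → ℤ)
    (hE : ∀ j, HasExponents (A j) (fun l => (E (some j) l : ℚ) / N))
    (hE' : HasExponents (∑ j, A j) (fun l => -(E none l : ℚ) / N)) (a : ℤ)
    (hno : ¬ Bad α A N a) (x0 : Option (Fin n)) (y : Option (Fin n) → Fin r → ℤ)
    (hy : ∀ p, p ≠ x0 → ∀ l, (N : ℤ) ∣ a * E p l - y p l) (D : Option (Fin n) → ℤ)
    (hD : ∀ p, p ≠ x0 → ∀ l, |y p l| ≤ D p) (l0 : Fin r) :
    (a * E x0 l0) % N ≤ ∑ p ∈ univ.erase x0, D p ∨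
      N - ∑ p ∈ univ.erase x0, D p ≤ (a * E x0 l0) % N := by
  have hN0 : (0 : ℤ) < N := by exact_mod_cast hN
  refine disp hN0 (fun p l => a * E p l)
    (fun x hx => sym_ineq α hα A A (Or.inl rfl) N hN E hE hE' a hno x hx)
    (fun x hx => ?_) x0 y hy D hD l0
  have h1 := sym_ineq α hα A (fun j => -(A j).transpose) (Or.inr rfl) N hN (fun p l => -E p l)
    (fun j => ?_) ?_ a hno x hx
  · refine h1.trans (le_of_eq ?_)
    refine sum_congr rfl fun p _ => sum_congr rfl fun l _ => ?_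
    congr 1
    ring
  · have h2 := hasExponents_dual (hE j)
    convert h2 using 2 with l
    push_cast
    ring
  · have h2 := hasExponents_dual hE'
    have h3 : ∑ j, -(A j).transpose = -(∑ j, A j).transpose := by
      rw [Matrix.transpose_sum, sum_neg_distrib]
    rw [h3]
    convert h2 using 2 with l
    push_cast
    ring

end Pool.Agent.X319.DI
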