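import Pool.Agent.X319.DI.Core
import Pool.Agent.X319.DI.Arith

set_option autoImplicit false
set_option maxHeartbeats 4000000

/-!
The displacement inequality for rational exponents, and systems with rough denominators outside of
one point.
-/

namespace Pool.Agent.X319.DI

open Finset Pool.Agent.W432.PC Pool.Agent.W280.PC Pool.Agent.TH571.PCV Polynomial

universe u

variable {R : Type u} [CommRing R] [IsDomain R] [CharZero R]

theorem bad_of_disp {n r : ℕ} (α : Fin n → R) (hα : ∀ i j, i ≠ j → IsUnit (α i - α j))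
    (A : Fin n → Matrix (Fin r) (Fin r) R) (lam : Option (Fin n) → Fin r → ℚ)
    (hlam : ∀ j, HasExponents (A j) (lam (some j)))
    (hinf : HasExponents (∑ j, A j) (fun l => -lam none l))
    (N : ℕ) (hN : 0 < N) (hNlam : ∀ x l, ∃ m : ℤ, (N : ℚ) * lam x l = m)
    (x0 : Option (Fin n)) (l0 : Fin r) (a : ℤ) (D : Option (Fin n) → ℚ)
    (hD : ∀ x, x ≠ x0 → ∀ l, nn (a * lam x l) ≤ D x)
    (hlt : ∑ x ∈ univ.erase x0, D x < nn (a * lam x0 l0)) : Bad α A N a := by
  classical
  by_contra hno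
  choose E hE using hNlam
  have hNq : (0 : ℚ) < N := by exact_mod_cast hN
  have hl : ∀ x l, lam x l = (E x l : ℚ) / N := fun x l => by
    rw [← hE]; field_simp
  have h1 := disp_system α hα A N hN E
    (fun j => by
      have := hlam j
      convert this using 2 with l
      exact (hl _ _).symm)
    (by
      convert hinf using 2 with l
      rw [hl]; ring) a hno x0
    (fun x l => a * E x l - N * round ((a : ℚ) * lam x l))
    (fun p _ l => ⟨round ((a : ℚ) * lam p l), by ring⟩) (fun x => ⌊(N : ℚ) * D x⌋)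
    (fun p hp l => ?_) l0
  · -- conclusion
    have h2 : (((∑ p ∈ univ.erase x0, ⌊(N : ℚ) * D p⌋ : ℤ)) : ℚ) ≤ N * ∑ x ∈ univ.erase x0, D x := by
      push_cast
      rw [mul_sum]
      exact sum_le_sum fun p _ => Int.floor_le _
    have h3 := Int.emod_add_mul_ediv (a * E x0 l0) N
    set q := (a * E x0 l0) / (N : ℤ)
    set t := (a * E x0 l0) % (N : ℤ)
    have h3q : (t : ℚ) + N * q = a * E x0 l0 := by exact_mod_cast h3
    have hn0 := Int.emod_nonneg (a * E x0 l0) (by omega : (N : ℤ) ≠ 0)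
    have hn1 := Int.emod_lt_of_pos (a * E x0 l0) (by omega : (0 : ℤ) < N)
    have ht0 : (0 : ℚ) ≤ t := by exact_mod_cast hn0
    have ht1 : (t : ℚ) < N := by exact_mod_cast hn1
    rcases h1 with h1 | h1
    · have h4 := nn_le (a * lam x0 l0) q
      have h5 : (a : ℚ) * lam x0 l0 - q = t / N := by
        rw [hl]; field_simp; linarith
      rw [h5, abs_div, abs_of_nonneg ht0, Nat.abs_cast, le_div_iff₀ hNq] at h4
      have h6 : (t : ℚ) ≤ ((∑ p ∈ univ.erase x0, ⌊(N : ℚ) * D p⌋ : ℤ) : ℚ) := by exact_mod_cast h1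
      nlinarith
    · have h4 := nn_le (a * lam x0 l0) (q + 1)
      have h5 : (a : ℚ) * lam x0 l0 - ((q + 1 : ℤ) : ℚ) = -((N - t) / N) := by
        rw [hl]; push_cast; field_simp; linarith
      rw [h5, abs_neg, abs_div, abs_of_nonneg (by linarith : (0 : ℚ) ≤ N - t), Nat.abs_cast,
        le_div_iff₀ hNq] at h4
      have h6 : ((N : ℤ) : ℚ) - ((∑ p ∈ univ.erase x0, ⌊(N : ℚ) * D p⌋ : ℤ) : ℚ) ≤ t := by
        exact_mod_cast h1
      push_cast at h2 h6
      nlinarith
  · rw [Int.le_floor]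
    have h2 := mul_le_mul_of_nonneg_left (hD p hp l) hNq.le
    refine le_trans (le_of_eq ?_) h2
    have h3 : (((a * E p l - N * round ((a : ℚ) * lam p l) : ℤ)) : ℚ) =
        N * (a * lam p l - round ((a : ℚ) * lam p l)) := by
      rw [mul_sub, ← mul_assoc, mul_comm (N : ℚ) (a : ℚ), mul_assoc, hE]
      push_cast
      ring
    rw [Int.cast_abs, h3, abs_mul, Nat.abs_cast]
    rfl

theorem rough {n r : ℕ} (α : Fin n → R) (hα : ∀ i j, i ≠ j → IsUnit (α i - α j))
    (A : Fin n → Matrix (Fin r) (Fin r) R) (lam : Option (Fin n) → Fin r → ℚ)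
    (hlam : ∀ j, HasExponents (A j) (lam (some j)))
    (hinf : HasExponents (∑ j, A j) (fun l => -lam none l))
    (N : ℕ) (hN : 0 < N) (hNlam : ∀ x l, ∃ m : ℤ, (N : ℚ) * lam x l = m)
    (x0 : Option (Fin n)) (l0 : Fin r) (M : ℕ) (hM : 0 < M)
    (hMlam : ∀ x, x ≠ x0 → ∀ l, ∃ m : ℤ, (M : ℚ) * lam x l = m)
    (hq : ∀ q : ℕ, q.Prime → q ∣ M → (6 * n + 7) ^ (n * r + 1) < q)
    (hMl : ¬ ∃ m : ℤ, (M : ℚ) * lam x0 l0 = m) :
    ∃ a : ℤ, IsCoprime a (N : ℤ) ∧ Bad α A N a := by
  classical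
  have hcard : Fintype.card ({x : Option (Fin n) // x ≠ x0} × Fin r) = n * r := by
    rw [Fintype.card_prod, Fintype.card_fin]
    congr 1
    have h1 := Fintype.card_subtype_compl (fun x : Option (Fin n) => x = x0)
    rw [Fintype.card_option, Fintype.card_fin] at h1
    simpa using h1
  obtain ⟨a, ha, h1, h2⟩ := arith (fun i : {x : Option (Fin n) // x ≠ x0} × Fin r => lam i.1 i.2)
    (lam x0 l0) n N M hN hM (hNlam _ _) (fun i => hMlam _ i.1.2 _) hMl (by rw [hcard]; exact hq)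
  refine ⟨a, ha, bad_of_disp α hα A lam hlam hinf N hN hNlam x0 l0 a (fun _ => 1 / (6 * n + 7))
    (fun x hx l => (h1 ⟨⟨x, hx⟩, l⟩).le) ?_⟩
  rw [sum_const, card_erase_of_mem (mem_univ _), card_univ, Fintype.card_option, Fintype.card_fin,
    Nat.add_sub_cancel, nsmul_eq_mul]
  refine lt_of_le_of_lt (le_of_eq ?_) h2
  ring

end Pool.Agent.X319.DI
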