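import Pool.Agent.X319.DI.Two
import Pool.Agent.W432.HK.Stmt
import Pool.Agent.W432.WB.Prime

set_option autoImplicit false
set_option maxHeartbeats 4000000

/-!
The inequalities for operators.
-/

namespace Pool.Agent.X319.DI

open Finset Polynomial
open Pool.Agent.W432.PC (wt lexLE)
open Pool.Agent.W432.WB
open Pool.Agent.W280.PC (wI wt_wI wI_nonneg wI_le wI_mod exists_sorted)
open Pool.Agent.TH571.PCV (pos_of_ineq)
open Pool.Agent.W432.HK (Cond FuchsianWith CommonDen)

universe u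

/-- No full basis of rational solutions for the large primes in the class. -/
def NoFull {n : ℕ} (b : Fin (n + 1) → ℤ[X]) (N : ℕ) (a : ℤ) : Prop :=
  ∃ P₀ : ℕ, ∀ p : ℕ, P₀ < p → (N : ℤ) ∣ a * p + 1 → ∀ _hp : Fact p.Prime, ¬ FullMod b p

lemma hasExps_perm {F : Type u} [Field F] [CharZero F] {m n : ℕ} {α : Fin m → F}
    {Q : Fin (n + 1) → F[X]} {lam : Fin m → Fin n → ℚ} {phi : Fin n → ℚ} (h : HasExps α Q lam phi)
    (σ : Fin m → Equiv.Perm (Fin n)) (τ : Equiv.Perm (Fin n)) :
    HasExps α Q (fun j l => lam j (σ j l)) (fun l => phi (τ l)) := by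
  refine ⟨fun j => ?_, ?_⟩
  · rw [h.1 j]
    congr 1
    exact (Equiv.prod_comp (σ j) (fun l => (X - C ((lam j l : ℚ) : F)))).symm
  · rw [h.2]
    exact (Equiv.prod_comp τ (fun l => (X - C ((phi l : ℚ) : F)))).symm

/-- The symmetric inequality for operators. -/
theorem sym_ineq_op {F : Type u} [Field F] [CharZero F] {m n : ℕ} (hm : 0 < m) (hn : 0 < n)
    (b : Fin (n + 1) → ℤ[X]) (hb : b (Fin.last n) ≠ 0) (α : Fin m → F) (Q : Fin (n + 1) → F[X])
    (hF : IsFuchs b α Q) (lam : Fin m → Fin n → ℚ) (phi : Fin n → ℚ) (hE : HasExps α Q lam phi)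
    (N : ℕ) (hN : 0 < N) (E : Option (Fin m) → Fin n → ℤ)
    (he : ∀ j l, (N : ℚ) * lam j l = E (some j) l) (he' : ∀ l, (N : ℚ) * phi l = -E none l)
    (a : ℤ) (hno : ¬ NoFull b N a) (x : Option (Fin m) → ℤ) (hx : ∑ p, x p = 1) :
    (n : ℤ) * (N - 1) ≤ ∑ p, ∑ l, (a * E p l - x p) % (N : ℤ) := by
  have hN0 : (0 : ℤ) < N := by exact_mod_cast hN
  have hNq : (0 : ℚ) < N := by exact_mod_cast hN
  set c : ℕ := (n - 1) * (m - 1) with hc
  let phi' : Fin n → ℚ := fun l => phi l + ((c : ℕ) : ℚ)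
  let e' : Fin n → ℤ := fun l => -E none l + N * c
  have he'' : ∀ l, (N : ℚ) * phi' l = e' l := fun l => by
    simp only [phi', e']
    rw [mul_add, he']
    push_cast
    ring
  choose σ hσ using fun j => exists_sorted a (lam j)
  obtain ⟨τ, hτ⟩ := exists_sorted a phi'
  have hmono : ∀ {x y : ℚ} {u v : ℤ}, (N : ℚ) * x = u → (N : ℚ) * y = v → lexLE a x y →
      wI N a u ≤ wI N a v := by
    intro x y u v hx hy hxy
    have h1 : wt a x ≤ wt a y := by
      rcases hxy with h | h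
      · exact h.le
      · exact h.1.le
    have h2 := mul_le_mul_of_nonneg_left h1 hNq.le
    rw [wt_wI hN hx, wt_wI hN hy] at h2
    exact_mod_cast h2
  -- the degree
  have htr : ∑ j, ∑ l, E (some j) l + N * ∑ i, ((cw m n i : ℕ) : ℤ) = ∑ l, e' l := by
    have h1 := Pool.Agent.W432.WB.fuchs hn hm hF.inj hF.last hF.deg hE.1 hE.2
    have h2 : (N : ℚ) * (∑ j, ∑ l, lam j l + ∑ i, ((cw m n i : ℕ) : ℚ)) =
        (N : ℚ) * ∑ l, phi' l := by rw [h1]
    rw [mul_add] at h2
    simp only [Finset.mul_sum, he, he''] at h2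
    rw [← Finset.mul_sum] at h2
    have h3 : (((∑ j, ∑ l, E (some j) l + N * ∑ i, ((cw m n i : ℕ) : ℤ) : ℤ)) : ℚ) =
        ((∑ l, e' l : ℤ) : ℚ) := by
      push_cast
      exact h2
    exact_mod_cast h3
  have hdvd : (N : ℤ) ∣ ∑ j, ∑ l, wI N a (E (some j) l) - ∑ l, wI N a (e' l) := by
    have h1 : ∑ j, ∑ l, wI N a (E (some j) l) - ∑ l, wI N a (e' l) =
        ∑ j, ∑ l, (wI N a (E (some j) l) - a * E (some j) l) - ∑ l, (wI N a (e' l) - a * e' l) -
          N * (a * ∑ i, ((cw m n i : ℕ) : ℤ)) := by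
      simp only [Finset.sum_sub_distrib, ← Finset.mul_sum, ← htr]
      ring
    rw [h1]
    exact dvd_sub (dvd_sub (Finset.dvd_sum fun j _ => Finset.dvd_sum fun l _ => wI_mod a _)
      (Finset.dvd_sum fun l _ => wI_mod a _)) (Dvd.intro _ rfl)
  obtain ⟨d, hd⟩ := hdvd
  rw [mul_comm] at hd
  have hperm : ∀ j, ∑ l, wI N a (E (some j) (σ j l)) = ∑ l, wI N a (E (some j) l) := fun j =>
    Equiv.sum_comp (σ j) (fun l => wI N a (E (some j) l))
  have hperm' : ∑ l, wI N a (e' (τ l)) = ∑ l, wI N a (e' l) :=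
    Equiv.sum_comp τ (fun l => wI N a (e' l))
  have hpos := pos_of_ineq hN (fun j l => wI N a (E (some j) (σ j l))) (fun l => wI N a (e' (τ l)))
    (fun j l l' h => hmono (he j _) (he j _) (hσ j l l' h))
    (fun l l' h => hmono (he'' _) (he'' _) (hτ l l' h))
    (fun j l => wI_nonneg hN a _) (fun j l => wI_le hN a _) (fun l => wI_nonneg hN a _)
    (fun l => wI_le hN a _) d (by simp only [hperm, hperm']; exact hd) ?_ (fun j => x (some j))
  · have hmod : ∀ y z : ℤ, (wI N a y - z) % (N : ℤ) = (a * y - z) % (N : ℤ) := by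
      intro y z
      refine Int.ModEq.symm (Int.modEq_iff_dvd.2 ?_)
      have h1 := wI_mod (D := N) a y
      have h2 : wI N a y - z - (a * y - z) = wI N a y - a * y := by ring
      rw [h2]
      exact h1
    simp only [hmod] at hpos
    have h1 : ∑ l, (a * e' (τ l) - ∑ j, x (some j)) % (N : ℤ) =
        ∑ l, (a * e' l - ∑ j, x (some j)) % (N : ℤ) :=
      Equiv.sum_comp τ (fun l => (a * e' l - ∑ j, x (some j)) % (N : ℤ))
    have h2 : ∀ j, ∑ l, (a * E (some j) (σ j l) - x (some j)) % (N : ℤ) =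
        ∑ l, (a * E (some j) l - x (some j)) % (N : ℤ) :=
      fun j => Equiv.sum_comp (σ j) (fun l => (a * E (some j) l - x (some j)) % (N : ℤ))
    rw [h1, Finset.sum_congr rfl fun j _ => h2 j] at hpos
    rw [Fintype.sum_option] at hx ⊢
    have h3 : ∀ l, (a * e' l - ∑ j, x (some j)) % (N : ℤ) =
        N - 1 - (a * E none l - x none) % (N : ℤ) := fun l => by
      rw [← neg_sub_one_emod hN0]
      refine Int.ModEq.symm (Int.modEq_iff_dvd.2 ⟨a * c, ?_⟩)
      simp only [e']
      linear_combination -hx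
    simp only [h3, sum_sub_distrib, sum_const, card_univ, Fintype.card_fin, nsmul_eq_mul] at hpos
    linarith
  · intro q κ s hq
    by_contra hcon
    push Not at hcon
    apply hno
    have hw : ∀ j l, wt a (lam j l) = (wI N a (E (some j) l) : ℚ) / N := fun j l => by
      rw [← wt_wI hN (he j l)]; field_simp
    have hw' : ∀ l, wt a (phi' l) = (wI N a (e' l) : ℚ) / N := fun l => by
      rw [← wt_wI hN (he'' l)]; field_simp
    have hq' : ∑ j, ∑ l, wt a (lam j (σ j l)) - ∑ l, wt a (phi' (τ l)) + ∑ j, ((κ j : ℕ) : ℚ) =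
        q * n + (s : ℕ) := by
      have h1 : ∀ j, ∑ l, wt a (lam j (σ j l)) = ∑ l, wt a (lam j l) := fun j =>
        Equiv.sum_comp (σ j) (fun l => wt a (lam j l))
      have h2 : ∑ l, wt a (phi' (τ l)) = ∑ l, wt a (phi' l) :=
        Equiv.sum_comp τ (fun l => wt a (phi' l))
      rw [Finset.sum_congr rfl (fun j _ => h1 j), h2]
      simp only [hw, hw']
      have h3 := congrArg (fun x : ℤ => (x : ℚ)) hd
      have h4 := congrArg (fun x : ℤ => (x : ℚ)) hq
      push_cast at h3 h4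
      simp only [← Finset.sum_div]
      rw [← sub_div, h3]
      have h5 : (d : ℚ) * N / N = d := by field_simp
      rw [h5]
      linarith
    have hlt : q + wt a (phi' (τ s)) < ∑ j, wt a (lam j (σ j (κ j))) := by
      simp only [hw, hw']
      rw [← Finset.sum_div, lt_div_iff₀ hNq]
      have h3 : ((q * N + wI N a (e' (τ s)) : ℤ) : ℚ) <
          ((∑ j, wI N a (E (some j) (σ j (κ j))) : ℤ) : ℚ) := by
        exact_mod_cast hcon
      push_cast at h3
      calc ((q : ℚ) + (wI N a (e' (τ s)) : ℚ) / N) * N = q * N + wI N a (e' (τ s)) := by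
            field_simp
        _ < _ := h3
    exact main_field hm hn b hb α Q hF (fun j l => lam j (σ j l)) (fun l => phi (τ l))
      (hasExps_perm hE σ τ) N hN (fun j l => ⟨_, he j _⟩)
      (fun l => ⟨-E none (τ l), by rw [he']; push_cast; rfl⟩) a hσ hτ κ s q hq' hlt.le
      (fun h0 => absurd h0 hlt.ne)

end Pool.Agent.X319.DI
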