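import Pool.Agent.X319.DI.Oper

set_option autoImplicit false
set_option maxHeartbeats 4000000

/-!
The displacement inequality, rough denominators and coprime denominators, for operators.
-/

namespace Pool.Agent.X319.DI

open Finset Polynomial
open Pool.Agent.W432.WB
open Pool.Agent.W432.HK (Cond FuchsianWith CommonDen)

variable {m n : ℕ}

/-- The displacement inequality for operators. -/
theorem noFull_of_disp (hm : 1 ≤ m) (hn : 1 ≤ n) {b : Fin (n + 1) → ℤ[X]}
    {α : Fin m → AlgebraicClosure ℚ} {lam : Fin m → Fin n → ℚ} {phi : Fin n → ℚ} {N : ℕ}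
    (hF : FuchsianWith b α lam phi) (hN : CommonDen lam phi N) (ex : Option (Fin m) → Fin n → ℚ)
    (hex : ∀ j l, ex (some j) l = lam j l) (hex' : ∀ l, ex none l = phi l)
    (x0 : Option (Fin m)) (l0 : Fin n) (a : ℤ) (D : Option (Fin m) → ℚ)
    (hD : ∀ x, x ≠ x0 → ∀ l, nn (a * ex x l) ≤ D x)
    (hlt : ∑ x ∈ univ.erase x0, D x < nn (a * ex x0 l0)) : NoFull b N a ∨ NoFull b N (-a) := by
  classical
  obtain ⟨hb, Q, hFu, hE⟩ := hF
  obtain ⟨hN0, hNlam, hNphi⟩ := hN
  by_contra hno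
  rw [not_or] at hno
  obtain ⟨hno1, hno2⟩ := hno
  choose mu hmu using hNlam
  choose mu' hmu' using hNphi
  have hNq : (0 : ℚ) < N := by exact_mod_cast hN0
  have hNz : (0 : ℤ) < N := by exact_mod_cast hN0
  let E : Option (Fin m) → Fin n → ℤ := fun x l => x.elim (-mu' l) (fun j => mu j l)
  -- the exponents up to sign
  let ex' : Option (Fin m) → Fin n → ℚ := fun x l => x.elim (-phi l) (fun j => lam j l)
  have hl : ∀ x l, (N : ℚ) * ex' x l = E x l := by
    rintro (_ | j) l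
    · simp only [ex', E, Option.elim]; push_cast; rw [← hmu']; ring
    · simp only [ex', E, Option.elim]; exact hmu j l
  have hneg : ∀ q : ℚ, nn (-q) = nn q := by
    have h1 : ∀ q : ℚ, nn (-q) ≤ nn q := fun q => by
      have h2 := nn_le (-q) (-round q)
      refine h2.trans (le_of_eq ?_)
      unfold nn
      rw [← abs_neg]
      congr 1
      push_cast
      ring
    intro q
    refine le_antisymm (h1 q) ?_
    have h3 := h1 (-q)
    rwa [neg_neg] at h3
  have hexn : ∀ x l, nn (a * ex' x l) = nn (a * ex x l) := by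
    rintro (_ | j) l
    · simp only [ex', Option.elim, hex', mul_neg]
      exact hneg _
    · simp only [ex', Option.elim, hex]
  have h1 := disp hNz (fun p l => a * E p l)
    (fun x hx => sym_ineq_op hm hn b hb α Q hFu lam phi hE N hN0 E hmu
      (fun l => by simp only [E, Option.elim]; rw [hmu']; push_cast; ring) a hno1 x hx)
    (fun x hx => by
      have h2 := sym_ineq_op hm hn b hb α Q hFu lam phi hE N hN0 E hmu
        (fun l => by simp only [E, Option.elim]; rw [hmu']; push_cast; ring) (-a) hno2 x hx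
      simpa only [neg_mul] using h2) x0
    (fun x l => a * E x l - N * round ((a : ℚ) * ex' x l))
    (fun p _ l => ⟨round ((a : ℚ) * ex' p l), by ring⟩) (fun x => ⌊(N : ℚ) * D x⌋)
    (fun p hp l => ?_) l0
  · -- conclusion
    have h2 : (((∑ p ∈ univ.erase x0, ⌊(N : ℚ) * D p⌋ : ℤ)) : ℚ) ≤ N * ∑ x ∈ univ.erase x0, D x := by
      push_cast
      rw [mul_sum]
      exact sum_le_sum fun p _ => Int.floor_le _
    rw [← hexn] at hlt
    have h3 := Int.emod_add_mul_ediv (a * E x0 l0) N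
    set q := (a * E x0 l0) / (N : ℤ)
    set t := (a * E x0 l0) % (N : ℤ)
    have h3q : (t : ℚ) + N * q = a * E x0 l0 := by exact_mod_cast h3
    have hn0 := Int.emod_nonneg (a * E x0 l0) (by omega : (N : ℤ) ≠ 0)
    have hn1 := Int.emod_lt_of_pos (a * E x0 l0) (by omega : (0 : ℤ) < N)
    have ht0 : (0 : ℚ) ≤ t := by exact_mod_cast hn0
    have ht1 : (t : ℚ) < N := by exact_mod_cast hn1
    have hlx : ex' x0 l0 = (E x0 l0 : ℚ) / N := by rw [← hl]; field_simp
    rcases h1 with h1 | h1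
    · have h4 := nn_le (a * ex' x0 l0) q
      have h5 : (a : ℚ) * ex' x0 l0 - q = t / N := by
        rw [hlx]; field_simp; linarith
      rw [h5, abs_div, abs_of_nonneg ht0, Nat.abs_cast, le_div_iff₀ hNq] at h4
      have h6 : (t : ℚ) ≤ ((∑ p ∈ univ.erase x0, ⌊(N : ℚ) * D p⌋ : ℤ) : ℚ) := by exact_mod_cast h1
      nlinarith
    · have h4 := nn_le (a * ex' x0 l0) (q + 1)
      have h5 : (a : ℚ) * ex' x0 l0 - ((q + 1 : ℤ) : ℚ) = -((N - t) / N) := by
        rw [hlx]; push_cast; field_simp; linarith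
      rw [h5, abs_neg, abs_div, abs_of_nonneg (by linarith : (0 : ℚ) ≤ N - t), Nat.abs_cast,
        le_div_iff₀ hNq] at h4
      have h6 : ((N : ℤ) : ℚ) - ((∑ p ∈ univ.erase x0, ⌊(N : ℚ) * D p⌋ : ℤ) : ℚ) ≤ t := by
        exact_mod_cast h1
      push_cast at h2 h6
      nlinarith
  · rw [Int.le_floor]
    have h2 := mul_le_mul_of_nonneg_left (hD p hp l) hNq.le
    rw [← hexn] at h2
    refine le_trans (le_of_eq ?_) h2
    have h3 : (((a * E p l - N * round ((a : ℚ) * ex' p l) : ℤ)) : ℚ) =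
        N * (a * ex' p l - round ((a : ℚ) * ex' p l)) := by
      rw [mul_sub, ← mul_assoc, mul_comm (N : ℚ) (a : ℚ), mul_assoc, hl]
      push_cast
      ring
    rw [Int.cast_abs, h3, abs_mul, Nat.abs_cast]
    rfl

theorem rough_op (hm : 1 ≤ m) (hn : 1 ≤ n) {b : Fin (n + 1) → ℤ[X]}
    {α : Fin m → AlgebraicClosure ℚ} {lam : Fin m → Fin n → ℚ} {phi : Fin n → ℚ} {N : ℕ}
    (hF : FuchsianWith b α lam phi) (hN : CommonDen lam phi N) (ex : Option (Fin m) → Fin n → ℚ)
    (hex : ∀ j l, ex (some j) l = lam j l) (hex' : ∀ l, ex none l = phi l)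
    (x0 : Option (Fin m)) (l0 : Fin n) (M : ℕ) (hM : 0 < M)
    (hMlam : ∀ x, x ≠ x0 → ∀ l, ∃ z : ℤ, (M : ℚ) * ex x l = z)
    (hq : ∀ q : ℕ, q.Prime → q ∣ M → (6 * m + 7) ^ (m * n + 1) < q)
    (hMl : ¬ ∃ z : ℤ, (M : ℚ) * ex x0 l0 = z) :
    ∃ a : ℤ, IsCoprime a (N : ℤ) ∧ NoFull b N a := by
  classical
  have hcard : Fintype.card ({x : Option (Fin m) // x ≠ x0} × Fin n) = m * n := by
    rw [Fintype.card_prod, Fintype.card_fin]
    congr 1
    have h1 := Fintype.card_subtype_compl (fun x : Option (Fin m) => x = x0)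
    rw [Fintype.card_option, Fintype.card_fin] at h1
    simpa using h1
  have hNex : ∀ x l, ∃ z : ℤ, (N : ℚ) * ex x l = z := by
    rintro (_ | j) l
    · rw [hex']; exact hN.2.2 l
    · rw [hex]; exact hN.2.1 j l
  obtain ⟨a, ha, h1, h2⟩ := arith (fun i : {x : Option (Fin m) // x ≠ x0} × Fin n => ex i.1 i.2)
    (ex x0 l0) m N M hN.1 hM (hNex _ _) (fun i => hMlam _ i.1.2 _) hMl (by rw [hcard]; exact hq)
  have h3 := noFull_of_disp hm hn hF hN ex hex hex' x0 l0 a (fun _ => 1 / (6 * m + 7))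
    (fun x hx l => (h1 ⟨⟨x, hx⟩, l⟩).le) (by
      rw [sum_const, card_erase_of_mem (mem_univ _), card_univ, Fintype.card_option,
        Fintype.card_fin, Nat.add_sub_cancel, nsmul_eq_mul]
      refine lt_of_le_of_lt (le_of_eq ?_) h2
      ring)
  rcases h3 with h3 | h3
  · exact ⟨a, ha, h3⟩
  · exact ⟨-a, ha.neg_left, h3⟩

/-- The polygon inequality for operators of order two. -/
theorem noFull_of_polygon (hm : 1 ≤ m) {b : Fin (2 + 1) → ℤ[X]}
    {α : Fin m → AlgebraicClosure ℚ} {lam : Fin m → Fin 2 → ℚ} {phi : Fin 2 → ℚ} {N : ℕ}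
    (hF : FuchsianWith b α lam phi) (hN : CommonDen lam phi N) (ex : Option (Fin m) → Fin 2 → ℚ)
    (hex : ∀ j l, ex (some j) l = lam j l) (hex' : ∀ l, ex none l = phi l) (a : ℤ)
    (k : Option (Fin m) → ℤ) (hk : Odd (∑ x, k x + a * ((m : ℤ) - 1)))
    (hlt : ∑ x, |(a : ℚ) * (ex x 0 - ex x 1) - k x| < 1) : NoFull b N a := by
  classical
  by_contra hno
  obtain ⟨hb, Q, hFu, hE⟩ := hF
  obtain ⟨hN0, hNlam, hNphi⟩ := hN
  choose mu hmu using hNlam
  choose mu' hmu' using hNphi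
  have hNq : (0 : ℚ) < N := by exact_mod_cast hN0
  have hNz : (0 : ℤ) < N := by exact_mod_cast hN0
  let E : Option (Fin m) → Fin 2 → ℤ := fun x l => x.elim (-mu' l) (fun j => mu j l)
  -- the Fuchs relation
  have hsum : ∑ x, (E x 0 + E x 1) = N * ((m : ℤ) - 1) := by
    have h1 := Pool.Agent.W432.WB.fuchs (by norm_num) hm hFu.inj hFu.last hFu.deg hE.1 hE.2
    have h2 := h1
    simp only [Fin.sum_univ_two, cw] at h2
    have h3 : (((∑ x, (E x 0 + E x 1) : ℤ)) : ℚ) = N * ((m : ℚ) - 1) := by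
      rw [Fintype.sum_option]
      simp only [E, Option.elim]
      have h6 : ∑ j, ((mu j 0 : ℚ) + mu j 1) = N * ∑ j, (lam j 0 + lam j 1) := by
        rw [mul_sum]
        exact sum_congr rfl fun j _ => by rw [← hmu, ← hmu]; ring
      push_cast
      rw [h6, ← hmu', ← hmu']
      have h4 : (((m - 1 : ℕ)) : ℚ) = (m : ℚ) - 1 := by rw [Nat.cast_sub hm]; simp
      simp only [Fin.val_zero, Fin.val_one] at h2
      push_cast at h2
      rw [h4] at h2
      norm_num at h2
      linear_combination (N : ℚ) * h2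
    have h5 : (((∑ x, (E x 0 + E x 1) : ℤ)) : ℚ) = ((N * ((m : ℤ) - 1) : ℤ) : ℚ) := by
      rw [h3]; push_cast; ring
    exact_mod_cast h5
  obtain ⟨c, hc⟩ := hk
  -- signs at infinity
  let k' : Option (Fin m) → ℤ := fun x => x.elim (-k none) (fun j => k (some j))
  refine polygon hNz (fun p l => a * E p l) (fun x hx => sym_ineq_op hm (by norm_num) b hb α Q hFu
    lam phi hE N hN0 E hmu (fun l => by simp only [E, Option.elim]; rw [hmu']; push_cast; ring) a hno
      x hx) none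
    (fun x l => if l = 0 then a * E x 0 - N * k' x else a * E x 1) (fun p l => ?_)
    (a * ((m : ℤ) - 1) - c - 1 + k none) ?_ ?_
  · fin_cases l
    · exact ⟨k' p, by simp⟩
    · exact ⟨0, by simp⟩
  · simp only [if_true, one_ne_zero, if_false]
    have h1 : ∑ p, (a * E p 0 - N * k' p + a * E p 1) = a * ∑ x, (E x 0 + E x 1) - N * ∑ x, k' x := by
      rw [mul_sum, mul_sum, ← sum_sub_distrib]
      exact sum_congr rfl fun x _ => by ring
    rw [h1, hsum]
    rw [Fintype.sum_option] at hc ⊢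
    simp only [k', Option.elim]
    linear_combination (-(N : ℤ)) * hc
  · simp only [if_true, one_ne_zero, if_false]
    have h1 : (((∑ x, |a * E x 0 - N * k' x - a * E x 1| : ℤ)) : ℚ) =
        N * ∑ x, |(a : ℚ) * (ex x 0 - ex x 1) - k x| := by
      rw [mul_sum]
      push_cast
      refine sum_congr rfl fun x _ => ?_
      rw [← abs_of_pos hNq, ← abs_mul, abs_of_pos hNq]
      rcases x with _ | j
      · rw [← abs_neg]
        congr 1
        simp only [E, k', Option.elim, hex']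
        push_cast
        rw [← hmu', ← hmu']
        ring
      · congr 1
        simp only [E, k', Option.elim, hex]
        rw [← hmu, ← hmu]
        ring
    have h2 : (((∑ x, |a * E x 0 - N * k' x - a * E x 1| : ℤ)) : ℚ) < N := by
      rw [h1]
      nlinarith
    exact_mod_cast h2

/-- Violations with a shifted parity. -/
lemma viol_shift {ι : Type*} [Fintype ι] {X : ι → ℚ} {c a : ℤ}
    (h : Viol (fun x : Option ι => x.elim (c : ℚ) X) a) :
    ∃ k : ι → ℤ, Odd (∑ x, k x + a * c) ∧ ∑ x, |(a : ℚ) * X x - k x| < 1 := by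
  obtain ⟨k, hk, hlt⟩ := h
  rw [Fintype.sum_option] at hk hlt
  simp only [Option.elim] at hlt
  have h0 : 0 ≤ ∑ x, |(a : ℚ) * X x - k (some x)| := sum_nonneg fun _ _ => abs_nonneg _
  have h1 : k none = a * c := by
    by_contra hne
    have h2 : (1 : ℤ) ≤ |a * c - k none| := Int.one_le_abs (sub_ne_zero.2 fun h => hne h.symm)
    have h3 : (1 : ℚ) ≤ |(a : ℚ) * c - k none| := by exact_mod_cast h2
    linarith
  refine ⟨fun x => k (some x), ?_, ?_⟩
  · rw [h1, add_comm] at hk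
    exact hk
  · refine lt_of_le_of_lt ?_ hlt
    linarith [abs_nonneg ((a : ℚ) * c - k none)]

theorem coprime_op (hm : 1 ≤ m) {b : Fin (2 + 1) → ℤ[X]}
    {α : Fin m → AlgebraicClosure ℚ} {lam : Fin m → Fin 2 → ℚ} {phi : Fin 2 → ℚ} {N : ℕ}
    (hF : FuchsianWith b α lam phi) (hN : CommonDen lam phi N) (ex : Option (Fin m) → Fin 2 → ℚ)
    (hex : ∀ j l, ex (some j) l = lam j l) (hex' : ∀ l, ex none l = phi l)
    (X : Option (Fin m) → ℚ) (hX : ∀ x, X x = ex x 0 - ex x 1)
    (hcop : ∀ x y, x ≠ y → Nat.Coprime (X x).den (X y).den) (x0 : Option (Fin m))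
    (h1 : 1 < (X x0).den)
    (hlt : ∑ x ∈ univ.filter (fun x => 1 < (X x).den), (1 : ℚ) / (X x).den + 1 / (X x0).den < 1 ∨
      (Even (X x0).den ∧ ∑ x ∈ univ.filter (fun x => 1 < (X x).den), (1 : ℚ) / (X x).den < 1)) :
    ∃ a : ℤ, IsCoprime a (N : ℤ) ∧ NoFull b N a := by
  classical
  have hden : (((((m : ℤ) - 1 : ℤ)) : ℚ)).den = 1 := Rat.den_intCast _
  have hfil : ∑ x ∈ (univ : Finset (Option (Option (Fin m)))).filter
      (fun x => 1 < (x.elim ((((m : ℤ) - 1 : ℤ)) : ℚ) X : ℚ).den),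
      (1 : ℚ) / (x.elim ((((m : ℤ) - 1 : ℤ)) : ℚ) X : ℚ).den =
      ∑ x ∈ univ.filter (fun x => 1 < (X x).den), (1 : ℚ) / (X x).den := by
    rw [sum_filter, sum_filter, Fintype.sum_option]
    simp only [Option.elim, hden]
    norm_num
  obtain ⟨a, ha, hv⟩ := exists_viol_coprime
    (fun x : Option (Option (Fin m)) => x.elim ((((m : ℤ) - 1 : ℤ)) : ℚ) X)
    (by
      rintro (_ | x) (_ | y) hxy
      · exact absurd rfl hxy
      · simp only [Option.elim, hden]; exact Nat.coprime_one_left _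
      · simp only [Option.elim, hden]; exact Nat.coprime_one_right _
      · exact hcop x y fun h => hxy (by rw [h]))
    (some x0) h1 (by
      rw [hfil]
      exact hlt) N hN.1
  obtain ⟨k, hk, hk'⟩ := viol_shift hv
  simp only [hX] at hk'
  exact ⟨a, ha, noFull_of_polygon hm hF hN ex hex hex' a k hk hk'⟩

theorem one_point_op (hm : 1 ≤ m) {b : Fin (2 + 1) → ℤ[X]}
    {α : Fin m → AlgebraicClosure ℚ} {lam : Fin m → Fin 2 → ℚ} {phi : Fin 2 → ℚ} {N : ℕ}
    (hF : FuchsianWith b α lam phi) (hN : CommonDen lam phi N) (ex : Option (Fin m) → Fin 2 → ℚ)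
    (hex : ∀ j l, ex (some j) l = lam j l) (hex' : ∀ l, ex none l = phi l)
    (X : Option (Fin m) → ℚ) (hX : ∀ x, X x = ex x 0 - ex x 1)
    (x0 : Option (Fin m)) (M : ℕ) (a1 : ℤ) (hM : 0 < M)
    (hMX : ∀ x, x ≠ x0 → ∃ z : ℤ, (M : ℚ) * X x = z)
    (h1 : 1 < (X x0).den) (hcop : Nat.Coprime (X x0).den M) (ha1 : IsCoprime a1 (M : ℤ))
    (hlt : ∑ x ∈ univ.erase x0, nn (a1 * X x) + 2 / (X x0).den < 1 ∨
      (Even (X x0).den ∧ ∑ x ∈ univ.erase x0, nn (a1 * X x) + 1 / (X x0).den < 1)) :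
    ∃ a : ℤ, IsCoprime a (N : ℤ) ∧ NoFull b N a := by
  classical
  have hfil : ∑ x ∈ (univ : Finset (Option (Option (Fin m)))).erase (some x0),
      nn (a1 * (x.elim ((((m : ℤ) - 1 : ℤ)) : ℚ) X : ℚ)) = ∑ x ∈ univ.erase x0, nn (a1 * X x) := by
    have e1 := add_sum_erase (univ : Finset (Option (Option (Fin m))))
      (fun x => nn (a1 * (x.elim ((((m : ℤ) - 1 : ℤ)) : ℚ) X : ℚ))) (mem_univ (some x0))
    have e2 := add_sum_erase univ (fun x => nn (a1 * X x)) (mem_univ x0)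
    rw [Fintype.sum_option] at e1
    change nn (a1 * X x0) + _ = nn (a1 * ((((m : ℤ) - 1 : ℤ)) : ℚ)) + ∑ x, nn (a1 * X x) at e1
    have e3 : nn (a1 * ((((m : ℤ) - 1 : ℤ)) : ℚ)) = 0 := by
      refine le_antisymm ?_ (nn_nonneg _)
      have := nn_le (a1 * ((((m : ℤ) - 1 : ℤ)) : ℚ)) (a1 * ((m : ℤ) - 1))
      refine this.trans (le_of_eq ?_)
      push_cast
      simp
    rw [e3] at e1
    linarith
  obtain ⟨a, ha, hv⟩ := exists_viol
    (fun x : Option (Option (Fin m)) => x.elim ((((m : ℤ) - 1 : ℤ)) : ℚ) X) (some x0) M hM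
    (by
      rintro (_ | x) hx
      · exact ⟨M * ((m : ℤ) - 1), by simp only [Option.elim]; push_cast; ring⟩
      · exact hMX x fun h => hx (by rw [h]))
    hcop h1 a1 ha1 (by
      rw [hfil]
      exact hlt) N hN.1
  obtain ⟨k, hk, hk'⟩ := viol_shift hv
  simp only [hX] at hk'
  exact ⟨a, ha, noFull_of_polygon hm hF hN ex hex hex' a k hk hk'⟩

end Pool.Agent.X319.DI
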