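import Pool.Agent.X319.DI.Final

set_option autoImplicit false
set_option maxHeartbeats 4000000

/-!
Rank two: the polygon inequality and coprime denominators.
-/

namespace Pool.Agent.X319.DI

open Finset Pool.Agent.W432.PC Pool.Agent.W280.PC Pool.Agent.TH571.PCV Polynomial

universe u

/-- The combinatorial form of the polygon inequality. -/
lemma polygon {ι : Type*} [Fintype ι] [DecidableEq ι] {N : ℤ} (hN : 0 < N) (V : ι → Fin 2 → ℤ)
    (hP : ∀ x : ι → ℤ, ∑ p, x p = 1 → ((2 : ℕ) : ℤ) * (N - 1) ≤ ∑ p, ∑ l, (V p l - x p) % N)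
    (p0 : ι) (y : ι → Fin 2 → ℤ) (hy : ∀ p l, N ∣ V p l - y p l) (k : ℤ)
    (hsum : ∑ p, (y p 0 + y p 1) = N * (2 * k + 1)) (hD : ∑ p, |y p 0 - y p 1| < N) : False := by
  classical
  let lo : ι → ℤ := fun p => min (y p 0) (y p 1)
  have hlo0 : ∀ p, lo p ≤ y p 0 := fun p => min_le_left _ _
  have hlo1 : ∀ p, lo p ≤ y p 1 := fun p => min_le_right _ _
  have hlo2 : ∀ p, 2 * lo p = (y p 0 + y p 1) - |y p 0 - y p 1| := fun p => by
    simp only [lo]
    rcases le_total (y p 0) (y p 1) with h | h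
    · rw [min_eq_left h, abs_of_nonpos (by linarith)]; ring
    · rw [min_eq_right h, abs_of_nonneg (by linarith)]; ring
  have hS : 2 * ∑ p, lo p = N * (2 * k + 1) - ∑ p, |y p 0 - y p 1| := by
    rw [mul_sum, sum_congr rfl fun p _ => hlo2 p, sum_sub_distrib, hsum]
  have hS1 : N * k + 1 ≤ ∑ p, lo p := by
    have : N * (2 * k + 1) = 2 * (N * k) + N := by ring
    omega
  set s : ℤ := ∑ p, lo p - (N * k + 1) with hs
  have hs0 : 0 ≤ s := by omega
  let x : ι → ℤ := fun p => if p = p0 then lo p0 - s - N * k else lo p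
  have hx0 : x p0 = lo p0 - s - N * k := by simp only [x, if_true]
  have hxp : ∀ p, p ≠ p0 → x p = lo p := fun p hp => by simp only [x, if_neg hp]
  have hx : ∑ p, x p = 1 := by
    have h1 := add_sum_erase univ lo (mem_univ p0)
    rw [← add_sum_erase univ x (mem_univ p0), hx0,
      sum_congr rfl (fun p hp => hxp p (ne_of_mem_erase hp))]
    linarith
  have k1 := hP x hx
  have k2 : ∑ p, ∑ l, (V p l - x p) % N ≤
      (∑ l : Fin 2, (y p0 l - lo p0 + s)) + ∑ p ∈ univ.erase p0, ∑ l : Fin 2, (y p l - lo p) := by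
    rw [← add_sum_erase univ (fun p => ∑ l, (V p l - x p) % N) (mem_univ p0)]
    have hlo : ∀ p (l : Fin 2), lo p ≤ y p l := fun p l => by
      fin_cases l
      · exact hlo0 p
      · exact hlo1 p
    refine add_le_add (sum_le_sum fun l _ => ?_) (sum_le_sum fun p hp => sum_le_sum fun l _ => ?_)
    · refine emod_le_of hN ?_ (by have := hlo p0 l; omega)
      rw [hx0]
      have h5 : V p0 l - (lo p0 - s - N * k) - (y p0 l - lo p0 + s) = (V p0 l - y p0 l) + N * k := by
        ring
      rw [h5]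
      exact dvd_add (hy p0 l) (Dvd.intro _ rfl)
    · refine emod_le_of hN ?_ (by have := hlo p l; omega)
      rw [hxp p (ne_of_mem_erase hp)]
      have h5 : V p l - lo p - (y p l - lo p) = V p l - y p l := by ring
      rw [h5]
      exact hy p l
  have k3 : ∑ p, (∑ l : Fin 2, (y p l - lo p)) = N * (2 * k + 1) - 2 * ∑ p, lo p := by
    rw [mul_sum, ← hsum, ← sum_sub_distrib]
    refine sum_congr rfl fun p _ => ?_
    rw [Fin.sum_univ_two]
    ring
  rw [← add_sum_erase univ (fun p => ∑ l : Fin 2, (y p l - lo p)) (mem_univ p0)] at k3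
  simp only [sum_add_distrib, sum_const, card_univ, Fintype.card_fin, nsmul_eq_mul] at k2
  push_cast at k1 k2
  nlinarith

variable {R : Type u} [CommRing R] [IsDomain R] [CharZero R]

lemma fuchs {n r : ℕ} {A : Fin n → Matrix (Fin r) (Fin r) R} {lam : Option (Fin n) → Fin r → ℚ}
    (hlam : ∀ j, HasExponents (A j) (lam (some j)))
    (hinf : HasExponents (∑ j, A j) (fun l => -lam none l)) : ∑ x, ∑ l, lam x l = 0 := by
  have h1 := trace_eq hlam hinf
  rw [Fintype.sum_option, h1, sum_neg_distrib]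
  ring

/-- The polygon inequality for rank two. -/
theorem bad_of_polygon {n : ℕ} (α : Fin n → R) (hα : ∀ i j, i ≠ j → IsUnit (α i - α j))
    (A : Fin n → Matrix (Fin 2) (Fin 2) R) (lam : Option (Fin n) → Fin 2 → ℚ)
    (hlam : ∀ j, HasExponents (A j) (lam (some j)))
    (hinf : HasExponents (∑ j, A j) (fun l => -lam none l))
    (N : ℕ) (hN : 0 < N) (hNlam : ∀ x l, ∃ m : ℤ, (N : ℚ) * lam x l = m) (a : ℤ)
    (m : Option (Fin n) → ℤ) (hm : Odd (∑ x, m x))
    (hlt : ∑ x, |(a : ℚ) * (lam x 0 - lam x 1) - m x| < 1) : Bad α A N a := by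
  classical
  by_contra hno
  have hfuchs := fuchs hlam hinf
  choose E hE using hNlam
  have hNq : (0 : ℚ) < N := by exact_mod_cast hN
  have hNz : (0 : ℤ) < N := by exact_mod_cast hN
  have hl : ∀ x l, lam x l = (E x l : ℚ) / N := fun x l => by
    rw [← hE]; field_simp
  have hEsum : ∑ x, (E x 0 + E x 1) = 0 := by
    have h1 : (((∑ x, (E x 0 + E x 1) : ℤ)) : ℚ) = N * ∑ x, ∑ l, lam x l := by
      rw [mul_sum]
      push_cast
      refine sum_congr rfl fun x _ => ?_
      rw [Fin.sum_univ_two, mul_add, hE, hE]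
    rw [hfuchs, mul_zero] at h1
    exact_mod_cast h1
  obtain ⟨k, hk⟩ := hm
  refine polygon hNz (fun p l => a * E p l) (fun x hx => sym_ineq α hα A A (Or.inl rfl) N hN E
    (fun j => by
      have := hlam j
      convert this using 2 with l
      exact (hl _ _).symm)
    (by
      convert hinf using 2 with l
      rw [hl]; ring) a hno x hx) none
    (fun x l => if l = 0 then a * E x 0 - N * m x else a * E x 1) (fun p l => ?_) (-(k + 1)) ?_ ?_
  · fin_cases l
    · exact ⟨m p, by simp⟩
    · exact ⟨0, by simp⟩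
  · simp only [if_true, one_ne_zero, if_false]
    have h1 : ∑ p, (a * E p 0 - N * m p + a * E p 1) = a * ∑ x, (E x 0 + E x 1) - N * ∑ x, m x := by
      rw [mul_sum, mul_sum, ← sum_sub_distrib]
      exact sum_congr rfl fun x _ => by ring
    rw [h1, hEsum, hk]
    ring
  · simp only [if_true, one_ne_zero, if_false]
    have h1 : (((∑ x, |a * E x 0 - N * m x - a * E x 1| : ℤ)) : ℚ) =
        N * ∑ x, |(a : ℚ) * (lam x 0 - lam x 1) - m x| := by
      rw [mul_sum]
      push_cast
      refine sum_congr rfl fun x _ => ?_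
      rw [← abs_of_pos hNq, ← abs_mul, abs_of_pos hNq]
      congr 1
      rw [← hE, ← hE]
      ring
    have h2 : (((∑ x, |a * E x 0 - N * m x - a * E x 1| : ℤ)) : ℚ) < N := by
      rw [h1]
      nlinarith
    exact_mod_cast h2

/-! ### Arithmetic -/

lemma exists_lift_unit {a L : ℤ} (hL : 0 < L) (h : IsCoprime a L) (N : ℕ) (hN : 0 < N) :
    ∃ w : ℤ, IsCoprime (a + L * w) (N : ℤ) := by
  obtain ⟨l, rfl⟩ := Int.eq_ofNat_of_zero_le hL.le
  have hl : 0 < l := by exact_mod_cast hL
  have : NeZero (l * N) := ⟨(Nat.mul_pos hl hN).ne'⟩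
  have hunit : IsUnit ((a : ℤ) : ZMod l) := (ZMod.coe_int_isUnit_iff_isCoprime _ _).2 h.symm
  obtain ⟨a', ha'⟩ := ZMod.unitsMap_surjective (Dvd.intro N rfl : l ∣ l * N) hunit.unit
  have h1 : ((l : ℕ) : ℤ) ∣ ((a' : ZMod (l * N)).val : ℤ) - a := by
    rw [← ZMod.intCast_zmod_eq_zero_iff_dvd]
    have h2 := congrArg (fun x : (ZMod l)ˣ => (x : ZMod l)) ha'
    simp only [ZMod.unitsMap_def, Units.coe_map, MonoidHom.coe_coe, ZMod.castHom_apply,
      IsUnit.unit_spec] at h2
    push_cast
    rw [← h2, ← ZMod.cast_eq_val, sub_self]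
  obtain ⟨w, hw⟩ := h1
  refine ⟨w, ?_⟩
  have h3 : a + l * w = ((a' : ZMod (l * N)).val : ℤ) := by linarith
  rw [h3]
  have h4 : IsCoprime (((a' : ZMod (l * N)).val : ℤ)) (((l * N : ℕ)) : ℤ) := by
    rw [isCoprime_comm, ← ZMod.coe_int_isUnit_iff_isCoprime]
    rw [Int.cast_natCast, ZMod.natCast_zmod_val]
    exact a'.isUnit
  push_cast at h4
  exact h4.of_mul_right_right

/-- `a` violates the polygon inequality. -/
def Viol {ι : Type*} [Fintype ι] (X : ι → ℚ) (a : ℤ) : Prop :=
  ∃ m : ι → ℤ, Odd (∑ x, m x) ∧ ∑ x, |(a : ℚ) * X x - m x| < 1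

lemma Viol.add {ι : Type*} [Fintype ι] {X : ι → ℚ} {a : ℤ} (h : Viol X a) (L : ℤ)
    (hL : ∀ x, ∃ z : ℤ, (L : ℚ) * X x = 2 * z) (w : ℤ) : Viol X (a + L * w) := by
  obtain ⟨m, hm, hlt⟩ := h
  choose z hz using hL
  refine ⟨fun x => m x + 2 * z x * w, ?_, ?_⟩
  · rw [sum_add_distrib]
    refine hm.add_even ?_
    rw [even_iff_two_dvd]
    exact dvd_sum fun x _ => ⟨z x * w, by ring⟩
  · refine lt_of_le_of_lt (le_of_eq ?_) hlt
    refine sum_congr rfl fun x _ => ?_
    congr 1
    push_cast
    linear_combination (w : ℚ) * hz x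

/-- One point with denominator prime to the others. -/
theorem exists_viol {ι : Type*} [Fintype ι] [DecidableEq ι] (X : ι → ℚ) (x0 : ι) (M : ℕ)
    (hM : 0 < M) (hMX : ∀ x, x ≠ x0 → ∃ z : ℤ, (M : ℚ) * X x = z)
    (hcop : Nat.Coprime (X x0).den M) (h1 : 1 < (X x0).den) (a1 : ℤ) (ha1 : IsCoprime a1 (M : ℤ))
    (hlt : ∑ x ∈ univ.erase x0, nn (a1 * X x) + 2 / (X x0).den < 1 ∨
      (Even (X x0).den ∧ ∑ x ∈ univ.erase x0, nn (a1 * X x) + 1 / (X x0).den < 1)) (N : ℕ)
    (hN : 0 < N) : ∃ a : ℤ, IsCoprime a (N : ℤ) ∧ Viol X a := by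
  classical
  set d : ℕ := (X x0).den with hd
  set u : ℤ := (X x0).num with hu
  have hdq : (0 : ℚ) < d := by exact_mod_cast (X x0).den_pos
  have hXd : X x0 * d = u := Rat.mul_den_eq_num (X x0)
  have hud : IsCoprime u (d : ℤ) := Int.isCoprime_iff_gcd_eq_one.2 (by
    have := (X x0).reduced
    rwa [Int.gcd, Int.natAbs_natCast])
  -- it is enough to find `a` prime to `2 M d`
  have hL : ∀ x, ∃ z : ℤ, ((2 * M * d : ℤ) : ℚ) * X x = 2 * z := by
    intro x
    by_cases hx : x = x0
    · refine ⟨M * u, ?_⟩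
      rw [hx]
      push_cast
      linear_combination (2 * M : ℚ) * hXd
    · obtain ⟨z, hz⟩ := hMX x hx
      refine ⟨d * z, ?_⟩
      push_cast
      linear_combination (2 * d : ℚ) * hz
  suffices hex : ∃ a : ℤ, IsCoprime a (2 * M * d : ℤ) ∧ Viol X a by
    obtain ⟨a, ha, hv⟩ := hex
    obtain ⟨w, hw⟩ := exists_lift_unit (by
      have : (0 : ℤ) < d := by exact_mod_cast (X x0).den_pos
      positivity) ha N hN
    exact ⟨a + 2 * M * d * w, hw, hv.add _ hL w⟩
  -- `a1` may be taken odd
  obtain ⟨b, hb1, t1, hb2⟩ : ∃ b : ℤ, IsCoprime b (2 * M : ℤ) ∧ ∃ t : ℤ, b = a1 + M * t := by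
    rcases Int.even_or_odd a1 with he | ho
    · -- `M` is odd
      have hMo : Odd (M : ℤ) := by
        rw [← Int.not_even_iff_odd]
        intro hMe
        have h3 := ha1.isUnit_of_dvd' (even_iff_two_dvd.1 he) (even_iff_two_dvd.1 hMe)
        rw [Int.isUnit_iff] at h3
        omega
      refine ⟨a1 + M, ?_, 1, by ring⟩
      have h4 : IsCoprime (a1 + M) 2 := by
        have : Odd (a1 + M) := he.add_odd hMo
        obtain ⟨j, hj⟩ := this
        exact ⟨1, -j, by linear_combination hj⟩
      exact h4.mul_right (by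
        have h5 := (IsCoprime.add_mul_left_left_iff (x := a1) (y := (M : ℤ)) (z := 1)).2 ha1
        simpa using h5)
    · refine ⟨a1, ?_, 0, by ring⟩
      have h4 : IsCoprime a1 2 := by
        obtain ⟨j, hj⟩ := ho
        exact ⟨1, -j, by linear_combination hj⟩
      exact h4.mul_right ha1
  obtain ⟨v, w, hvw⟩ := hud
  have hv : IsCoprime v (d : ℤ) := ⟨u, w, by linear_combination hvw⟩
  choose! z hz using hMX
  -- the sum of the distances for an approximation
  have hsum : ∀ (a s m0 t : ℤ), a = a1 + M * t → a * u - s = m0 * d → 0 ≤ s →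
      (∑ x ∈ univ.erase x0, nn (a1 * X x) + s / d < 1) →
      Odd (m0 + ∑ x ∈ univ.erase x0, (round ((a1 : ℚ) * X x) + z x * t)) → Viol X a := by
    intro a s m0 t ha hs hs0 hlt' hodd
    refine ⟨fun x => if x = x0 then m0 else round ((a1 : ℚ) * X x) + z x * t, ?_, ?_⟩
    · rw [← add_sum_erase univ _ (mem_univ x0), if_pos rfl]
      rw [sum_congr rfl fun x hx => if_neg (ne_of_mem_erase hx)]
      exact hodd
    · rw [← add_sum_erase univ _ (mem_univ x0)]
      dsimp only
      rw [if_pos rfl]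
      have h3 : |(a : ℚ) * X x0 - m0| = s / d := by
        have h4 : (a : ℚ) * X x0 - m0 = s / d := by
          rw [eq_div_iff hdq.ne']
          have h5 : (a : ℚ) * u - s = m0 * d := by exact_mod_cast hs
          linear_combination (a : ℚ) * hXd + h5
        rw [h4, abs_of_nonneg (by positivity)]
      have h6 : ∑ x ∈ univ.erase x0, |(a : ℚ) * X x -
          ((if x = x0 then m0 else round ((a1 : ℚ) * X x) + z x * t : ℤ) : ℚ)| =
          ∑ x ∈ univ.erase x0, nn (a1 * X x) := by
        refine sum_congr rfl fun x hx => ?_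
        rw [if_neg (ne_of_mem_erase hx)]
        unfold nn
        congr 1
        rw [ha]
        push_cast
        linear_combination (t : ℚ) * hz x (ne_of_mem_erase hx)
      rw [h3, h6]
      linarith
  rcases Nat.even_or_odd d with hde | hdo
  · -- even denominator
    have hlt' : ∑ x ∈ univ.erase x0, nn (a1 * X x) + ((1 : ℤ) : ℚ) / d < 1 := by
      push_cast
      rcases hlt with h | h
      · refine lt_of_le_of_lt ?_ h
        gcongr
        norm_num
      · exact h.2
    have hMo : Odd (M : ℤ) := by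
      rw [← Int.not_even_iff_odd]
      intro hMe
      have h3 := Nat.dvd_gcd (even_iff_two_dvd.1 hde) (by
        have := even_iff_two_dvd.1 hMe
        exact_mod_cast this : 2 ∣ M)
      rw [hcop] at h3
      omega
    obtain ⟨c1, c2, hc⟩ := Nat.isCoprime_iff_coprime.2 hcop
    -- `c1 d + c2 M = 1`
    set a : ℤ := b * (c1 * d) + v * (c2 * M) with hadef
    have haM : a = b + M * (c2 * (v - b)) := by rw [hadef]; linear_combination b * hc
    have had : a = v + d * (c1 * (b - v)) := by rw [hadef]; linear_combination v * hc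
    have hcopM : IsCoprime a (M : ℤ) := by
      rw [haM, IsCoprime.add_mul_left_left_iff]
      exact hb1.of_mul_right_right
    have hcopd : IsCoprime a (d : ℤ) := by
      rw [had, IsCoprime.add_mul_left_left_iff]
      exact hv
    have hd2 : (2 : ℤ) ∣ d := by
      have := even_iff_two_dvd.1 hde
      exact_mod_cast this
    have hcop2 : IsCoprime a (2 : ℤ) := hcopd.of_isCoprime_of_dvd_right hd2
    have hall : ∀ a' : ℤ, (∃ j, a' = a + M * d * j) → IsCoprime a' (2 * M * d : ℤ) := by
      rintro a' ⟨j, rfl⟩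
      have e1 : IsCoprime (a + M * d * j) (M : ℤ) := by
        rw [show a + M * d * j = a + M * (d * j) by ring, IsCoprime.add_mul_left_left_iff]
        exact hcopM
      have e2 : IsCoprime (a + M * d * j) (d : ℤ) := by
        rw [show a + M * d * j = a + d * (M * j) by ring, IsCoprime.add_mul_left_left_iff]
        exact hcopd
      exact ((e2.of_isCoprime_of_dvd_right hd2).mul_right e1).mul_right e2
    -- parity
    set m0 : ℤ := u * (c1 * (b - v)) - w with hm0
    have hm0' : a * u - 1 = m0 * d := by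
      rw [had, hm0]; linear_combination hvw
    set t : ℤ := t1 + c2 * (v - b) with ht
    have hat : a = a1 + M * t := by rw [ht]; linear_combination haM + hb2
    have hu2 : Odd u := by
      rw [← Int.not_even_iff_odd]
      intro hue
      obtain ⟨j, hj⟩ := even_iff_two_dvd.1 hue
      obtain ⟨j', hj'⟩ := hd2
      have h9 : 2 * (v * j + w * j') = 1 := by rw [hj, hj'] at hvw; linear_combination hvw
      omega
    set T : ℤ := m0 + ∑ x ∈ univ.erase x0, (round ((a1 : ℚ) * X x) + z x * t) with hT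
    rcases Int.even_or_odd T with hTe | hTo
    · refine ⟨a + M * d * 1, hall _ ⟨1, rfl⟩, hsum _ 1 (m0 + M * u) (t + d) ?_ ?_ (by norm_num) hlt' ?_⟩
      · rw [hat]; ring
      · linear_combination hm0'
      · have e1 : m0 + M * u + ∑ x ∈ univ.erase x0, (round ((a1 : ℚ) * X x) + z x * (t + d)) =
            T + M * u + d * ∑ x ∈ univ.erase x0, z x := by
          rw [hT, mul_sum]
          simp only [mul_add, sum_add_distrib]
          have e2 : ∑ x ∈ univ.erase x0, z x * (d : ℤ) = ∑ x ∈ univ.erase x0, (d : ℤ) * z x :=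
            sum_congr rfl fun x _ => mul_comm _ _
          rw [e2]
          ring
        rw [e1]
        refine (hTe.add_odd (hMo.mul hu2)).add_even ?_
        exact (even_iff_two_dvd.2 hd2).mul_right _
    · exact ⟨a, hall a ⟨0, by ring⟩, hsum a 1 m0 t hat hm0' (by norm_num) hlt' hTo⟩
  · -- odd denominator
    have hlt2 : ∑ x ∈ univ.erase x0, nn (a1 * X x) + ((2 : ℤ) : ℚ) / d < 1 := by
      push_cast
      rcases hlt with h | h
      · exact h
      · exact absurd h.1 (Nat.not_even_iff_odd.2 hdo)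
    have hlt1 : ∑ x ∈ univ.erase x0, nn (a1 * X x) + ((1 : ℤ) : ℚ) / d < 1 := by
      refine lt_of_le_of_lt ?_ hlt2
      gcongr
      norm_num
    have hdz : Odd (d : ℤ) := by exact_mod_cast hdo
    have hcop2 : IsCoprime (d : ℤ) (2 * M : ℤ) := by
      have e1 : IsCoprime (d : ℤ) 2 := by
        obtain ⟨j, hj⟩ := hdz
        exact ⟨1, -j, by linear_combination hj⟩
      exact e1.mul_right (Nat.isCoprime_iff_coprime.2 hcop)
    obtain ⟨c1, c2, hc⟩ := hcop2
    -- the two candidates
    have hcand : ∀ s : ℤ, IsCoprime s (d : ℤ) → ∃ (a m0 j : ℤ), IsCoprime a (2 * M * d : ℤ) ∧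
        a * u - s = m0 * d ∧ a = b + 2 * M * j := by
      intro s hs
      refine ⟨b * (c1 * d) + s * v * (c2 * (2 * M)), u * (c1 * (b - s * v)) - s * w, c2 * (s * v - b),
        ?_, ?_, ?_⟩
      · have e1 : IsCoprime (b * (c1 * d) + s * v * (c2 * (2 * M))) (2 * M : ℤ) := by
          rw [show b * (c1 * d) + s * v * (c2 * (2 * M)) = b + (2 * M) * (c2 * (s * v - b)) by
            linear_combination b * hc, IsCoprime.add_mul_left_left_iff]
          exact hb1
        have e2 : IsCoprime (b * (c1 * d) + s * v * (c2 * (2 * M))) (d : ℤ) := by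
          rw [show b * (c1 * d) + s * v * (c2 * (2 * M)) = s * v + d * (c1 * (b - s * v)) by
            linear_combination s * v * hc, IsCoprime.add_mul_left_left_iff]
          exact hs.mul_left hv
        exact e1.mul_right e2
      · linear_combination s * v * u * hc + s * hvw
      · linear_combination b * hc
    obtain ⟨a, m0, j, k1, k2, k3⟩ := hcand 1 isCoprime_one_left
    obtain ⟨a', m0', j', k1', k2', k3'⟩ := hcand 2 (by
      obtain ⟨i, hi⟩ := hdz
      exact ⟨-i, 1, by linear_combination hi⟩)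
    set T : ℤ := m0 + ∑ x ∈ univ.erase x0, (round ((a1 : ℚ) * X x) + z x * (t1 + 2 * j)) with hT
    rcases Int.even_or_odd T with hTe | hTo
    · refine ⟨a', k1', hsum a' 2 m0' (t1 + 2 * j') (by rw [k3', hb2]; ring) k2' (by norm_num) hlt2 ?_⟩
      -- the parity changes
      have e1 : m0' + ∑ x ∈ univ.erase x0, (round ((a1 : ℚ) * X x) + z x * (t1 + 2 * j')) =
          T + (m0' - m0) + 2 * ((j' - j) * ∑ x ∈ univ.erase x0, z x) := by
        rw [hT]
        simp only [mul_add, sum_add_distrib, mul_sum]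
        have e2 : ∀ i : ℤ, ∑ x ∈ univ.erase x0, z x * (2 * i) =
            ∑ x ∈ univ.erase x0, 2 * (i * z x) := fun i => sum_congr rfl fun x _ => by ring
        rw [e2, e2]
        simp only [sub_mul, mul_sub, sum_sub_distrib]
        ring
      have e3 : Odd ((m0' - m0) * d) := by
        have e4 : (m0' - m0) * d = 2 * (M * (j' - j) * u - 1) + 1 := by
          have : m0' * d - m0 * d = (a' - a) * u - 1 := by rw [← k2', ← k2]; ring
          rw [sub_mul, this, k3', k3]
          ring
        rw [e4]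
        exact ⟨_, rfl⟩
      have e5 : Odd (m0' - m0) := (Int.odd_mul.1 e3).1
      rw [e1]
      exact (hTe.add_odd e5).add_even (even_two_mul _)
    · exact ⟨a, k1, hsum a 1 m0 (t1 + 2 * j) (by rw [k3, hb2]; ring) k2 (by norm_num) hlt1 hTo⟩

/-- Pairwise coprime denominators. -/
theorem exists_viol_coprime {ι : Type*} [Fintype ι] [DecidableEq ι] (X : ι → ℚ)
    (hcop : ∀ x y, x ≠ y → Nat.Coprime (X x).den (X y).den) (x0 : ι) (h1 : 1 < (X x0).den)
    (hlt : ∑ x ∈ univ.filter (fun x => 1 < (X x).den), (1 : ℚ) / (X x).den + 1 / (X x0).den < 1 ∨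
      (Even (X x0).den ∧ ∑ x ∈ univ.filter (fun x => 1 < (X x).den), (1 : ℚ) / (X x).den < 1))
    (N : ℕ) (hN : 0 < N) : ∃ a : ℤ, IsCoprime a (N : ℤ) ∧ Viol X a := by
  classical
  set M : ℕ := ∏ x ∈ univ.erase x0, (X x).den with hM
  have hM0 : 0 < M := prod_pos fun x _ => (X x).den_pos
  have hud : ∀ x, IsCoprime (X x).num ((X x).den : ℤ) := fun x => Int.isCoprime_iff_gcd_eq_one.2 (by
    have := (X x).reduced
    rwa [Int.gcd, Int.natAbs_natCast])
  choose v w hvw using hud
  -- simultaneous inverse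
  obtain ⟨k, hk⟩ := Nat.chineseRemainderOfFinset (fun x => (v x % (X x).den).toNat)
    (fun x => (X x).den) (univ.erase x0) (fun x _ => (X x).den_ne_zero)
    (fun x _ y _ hxy => hcop x y hxy)
  have hk' : ∀ x, x ≠ x0 → ((X x).den : ℤ) ∣ (k : ℤ) - v x := by
    intro x hx
    have h2 := hk x (mem_erase.2 ⟨hx, mem_univ _⟩)
    have h3 := (Nat.modEq_iff_dvd.1 h2.symm)
    have hpos : (0 : ℤ) < (X x).den := by exact_mod_cast (X x).den_pos
    rw [Int.toNat_of_nonneg (Int.emod_nonneg _ hpos.ne')] at h3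
    have h4 : ((X x).den : ℤ) ∣ v x - v x % ((X x).den : ℤ) := Int.dvd_self_sub_emod
    have h5 : (k : ℤ) - v x = (k - v x % ((X x).den : ℤ)) - (v x - v x % ((X x).den : ℤ)) := by ring
    rw [h5]
    exact dvd_sub h3 h4
  have hkcop : IsCoprime (k : ℤ) (M : ℤ) := by
    rw [hM]
    push_cast
    refine IsCoprime.prod_right fun x hx => ?_
    obtain ⟨c, hc⟩ := hk' x (ne_of_mem_erase hx)
    refine ⟨(X x).num, w x - (X x).num * c, ?_⟩
    linear_combination hvw x + (X x).num * hc
  have hsum : ∑ x ∈ univ.erase x0, nn (((k : ℤ) : ℚ) * X x) + 1 / (X x0).den ≤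
      ∑ x ∈ univ.filter (fun x => 1 < (X x).den), (1 : ℚ) / (X x).den := by
    have h3 : ∀ x, x ≠ x0 → nn (((k : ℤ) : ℚ) * X x) ≤
        if 1 < (X x).den then (1 : ℚ) / (X x).den else 0 := by
      intro x hx
      obtain ⟨c, hc⟩ := hk' x hx
      have hdq : (0 : ℚ) < (X x).den := by exact_mod_cast (X x).den_pos
      have hXd : X x * (X x).den = (X x).num := Rat.mul_den_eq_num (X x)
      have h4 : ((k : ℤ) : ℚ) * X x - ((-w x + (X x).num * c : ℤ) : ℚ) = 1 / (X x).den := by
        rw [eq_div_iff hdq.ne']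
        have h5 : ((k : ℤ) : ℚ) - v x = (X x).den * c := by exact_mod_cast hc
        have h6 : (v x : ℚ) * (X x).num + w x * (X x).den = 1 := by exact_mod_cast hvw x
        push_cast
        push_cast at h5
        linear_combination (k : ℚ) * hXd + ((X x).num : ℚ) * h5 + h6
      split_ifs with h7
      · refine (nn_le _ (-w x + (X x).num * c)).trans (le_of_eq ?_)
        rw [h4, abs_of_pos (by positivity)]
      · have h8 : (X x).den = 1 := by have := (X x).den_pos; omega
        have h9 := nn_le (((k : ℤ) : ℚ) * X x) (k * (X x).num)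
        have h10 : X x = (X x).num := by rw [← hXd, h8]; simp
        refine h9.trans (le_of_eq ?_)
        push_cast
        rw [← h10]
        simp
    rw [sum_filter, ← add_sum_erase univ _ (mem_univ x0), if_pos h1, add_comm]
    exact add_le_add_right (sum_le_sum fun x hx => h3 x (ne_of_mem_erase hx)) _
  refine exists_viol X x0 M hM0 (fun x hx => ?_) ?_ h1 k hkcop ?_ N hN
  · have h3 : (X x).den ∣ M := dvd_prod_of_mem _ (mem_erase.2 ⟨hx, mem_univ _⟩)
    obtain ⟨c, hc⟩ := h3
    refine ⟨(X x).num * c, ?_⟩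
    have hXd : X x * (X x).den = (X x).num := Rat.mul_den_eq_num (X x)
    rw [hc]
    push_cast
    linear_combination (c : ℚ) * hXd
  · exact Nat.Coprime.prod_right fun x hx => hcop x0 x (ne_of_mem_erase hx).symm
  · rcases hlt with h | h
    · left
      have : (2 : ℚ) / (X x0).den = 1 / (X x0).den + 1 / (X x0).den := by ring
      linarith
    · right
      exact ⟨h.1, by linarith [h.2]⟩

end Pool.Agent.X319.DI
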